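import Pool.Agent.Lib.MP_ae5b4e_an_NB4H.PerY
import Pool.Agent.Lib.MP_ae5b4e_an_NB4H.LabX
import Pool.Agent.Lib.MP_ae5b4e_an_LU.TU

/-!
# MP_ae5b4e_an, NB_4 part H: Theorem U along both boundary lines
-/

noncomputable section

namespace Pool.Agent.MP_ae5b4e_an_NB4H

open Complex Set Filter Topology Metric
open Pool.Agent.MP_ae5b4e_an_NBT
open Pool.Agent.MP_ae5b4e_an_NB2
open Pool.Agent.MP_ae5b4e_an_NB4 (NF Per)
open scoped ComplexConjugate

variable {k : ℂ → ℂ} {F G : ℂ × ℂ → ℂ} {c h : ℝ} {Y : Sys}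

/-- `Pool.Agent.MP_ae5b4e_an_FV.nbarc` over an arbitrary arc (same proof). -/
theorem nbarc_all (hN : NBd k F c h G) {L : ℂ × ℂ → ℂ} (hh : 0 < h)
    (hG : ∀ t ∈ St (-h) h, EqM G (fun p => Y.y2 (L p) / Y.y1 (L p)) (t, 0)) {b l : ℝ} (hl : 0 < l)
    (hlh : l ≤ h / 2) : NBArc Y h b l L := by
  intro β _ hβi hex
  obtain ⟨δ, hδ, g, hg, t₁, ht₁, -, hd0, hd1, he⟩ := hex
  have hd2 : 0 < h - t₁.im := hd0
  have hd3 : h - t₁.im < l / 4 := hd1
  have him1 : t₁.im < h := by linarith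
  have him2 : 0 < t₁.im := by linarith
  have hmem : t₁ ∈ St (-h) h := ⟨by linarith, him1⟩
  refine hN.nb β (by rw [hβi]; exact abs_of_pos hh) ⟨δ, hδ, g, hg, t₁, ht₁, ?_, ?_⟩
  · rw [abs_of_pos him2]
    exact him1
  · exact EqM.trans he (hG t₁ hmem).symm

/-- the label of `exists_labX` satisfies `Lab` -/
theorem lab_ex (hN : NBd k F c h G) (hY : SysOf Y G h) : ∃ L : ℂ × ℂ → ℂ, Lab Y h L ∧
    ∀ t ∈ St (-h) h, EqM G (fun p => Y.y2 (L p) / Y.y1 (L p)) (t, 0) := by
  obtain ⟨R, L, hR0, hR, hLan, hLp, hLz, hmem, hG, hnode⟩ := exists_labX hN hY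
  have hh : 0 < h := hN.pos.trans hN.hc
  have hm : ∀ t ∈ St (-h) h, ((t, 0) : ℂ × ℂ) ∈ DK F c R := fun t ht => hmem t (abs_lt.2 ht)
  refine ⟨L, ⟨hh, hY.1, fun t ht => hLan _ (hm t ht), fun t ht => hLz t (abs_lt.2 ht), ?_, ?_⟩, hG⟩
  · intro t ht
    filter_upwards [(isOpen_Dom _ _ _ _).mem_nhds (hm t ht)] with p hp
    exact (hLp p hp).2.2.1
  · exact hnode

/-- Theorem U over the arcs with the centres `j l / 4`, `l = h / 2`, `0 ≤ j l / 4 ≤ 1 + l`; the
other points of the upper half of the strip by integer translations (`s_add_int`), the points of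
the lower half by reflection (`refl_s`). The hypothesis `Arc` with `q ^ 2 ≥ C`, `q ≥ 1`. -/
theorem nf_of (hN : NBd k F c h G) (hY : SysOf Y G h) {C : ℝ}
    (hC : ∀ t ∈ St (-h) h, ‖Y.Q t‖ * (h - |t.im|) ^ 2 ≤ C) : NF Y h := by
  obtain ⟨L, hL, hG⟩ := lab_ex hN hY
  have hh : 0 < h := hL.h_pos
  have hP : Per Y h := per_of hN.toConE hY
  obtain ⟨q, hq⟩ : ∃ q : ℝ, q = max 1 C := ⟨_, rfl⟩
  have hq1 : 1 ≤ q := by rw [hq]; exact le_max_left _ _
  have hqC : C ≤ q ^ 2 := by
    have h1 : C ≤ q := by rw [hq]; exact le_max_right _ _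
    nlinarith
  obtain ⟨l, hl⟩ : ∃ l : ℝ, l = h / 2 := ⟨_, rfl⟩
  have hl0 : 0 < l := by rw [hl]; positivity
  have hlh : l ≤ h / 2 := hl.le
  obtain ⟨ε, hε, hU⟩ := not_uni hq1
  have harc : ∀ b : ℝ, Arc Y h b l q := by
    intro b
    refine ⟨hl0, hlh, hq1, fun t _ h2 h3 => ?_⟩
    have h2' : 0 < h - t.im := h2
    have h3' : h - t.im < l := h3
    have h4 : 0 < t.im := by linarith
    have h5 := hC t ⟨by linarith, by linarith⟩
    rw [abs_of_pos h4] at h5
    exact h5.trans hqC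
  have hD : ∀ j : ℕ, ∃ D₀ > 0, ∀ w : ℂ, |w.re - (j : ℝ) * (l / 4)| < l / 4 →
      0 < dep h w → dep h w < D₀ → ¬ Uni Y w (dep h w / (1 + ε)) := fun j =>
    hU Y h L _ l hL (harc _) (nbarc_all hN hh hG hl0 hlh)
  choose D hD0 hDU using hD
  obtain ⟨N, hN1⟩ := exists_nat_gt (1 / (l / 4))
  obtain ⟨s₀, hs₀, hs⟩ : ∃ s₀ > 0, ∀ j < N, s₀ ≤ D j := by
    clear hDU hN1
    induction N with
    | zero => exact ⟨1, one_pos, fun j hj => absurd hj (Nat.not_lt_zero j)⟩
    | succ n ih =>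
      obtain ⟨s, hs, hs'⟩ := ih
      refine ⟨min s (D n), lt_min hs (hD0 n), fun j hj => ?_⟩
      rcases Nat.lt_succ_iff_lt_or_eq.1 hj with h1 | h1
      · exact (min_le_left _ _).trans (hs' j h1)
      · rw [h1]
        exact min_le_right _ _
  have upper : ∀ w ∈ St (-h) h, 0 ≤ w.im → h - w.im < s₀ →
      ¬ ∀ u ∈ ball w ((h - w.im) / (1 + ε)), ∀ v ∈ ball w ((h - w.im) / (1 + ε)),
        Y.s u v = 0 → u = v := by
    intro w hw hw0 hws hinj
    obtain ⟨n, hn⟩ : ∃ n : ℤ, n = ⌊w.re⌋ := ⟨_, rfl⟩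
    obtain ⟨x, hx⟩ : ∃ x : ℝ, x = w.re - n := ⟨_, rfl⟩
    have hx0 : 0 ≤ x := by
      rw [hx, hn]
      linarith [Int.floor_le w.re]
    have hx1 : x < 1 := by
      rw [hx, hn]
      linarith [Int.lt_floor_add_one w.re]
    obtain ⟨j, hj⟩ : ∃ j : ℕ, j = ⌊x / (l / 4)⌋₊ := ⟨_, rfl⟩
    have hl4 : 0 < l / 4 := by positivity
    have hj1 : (j : ℝ) * (l / 4) ≤ x := by
      have := Nat.floor_le (div_nonneg hx0 hl4.le)
      rw [← hj] at this
      rwa [le_div_iff₀ hl4] at this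
    have hj2 : x < (j : ℝ) * (l / 4) + l / 4 := by
      have := Nat.lt_floor_add_one (x / (l / 4))
      rw [← hj, div_lt_iff₀ hl4] at this
      linarith
    have hjN : j < N := by
      have h1 : (j : ℝ) < N := by
        refine lt_of_le_of_lt ?_ hN1
        rw [le_div_iff₀ hl4]
        linarith
      exact_mod_cast h1
    have hdw : dep h (w - n) = h - w.im := by
      unfold dep
      simp
    have hd0 : 0 < h - w.im := by linarith [hw.2]
    have hr0 : 0 < (h - w.im) / (1 + ε) := by positivity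
    have hr1 : (h - w.im) / (1 + ε) < h - w.im := by
      rw [div_lt_iff₀ (by linarith)]
      nlinarith
    have hball : ∀ z ∈ ball (w - n) ((h - w.im) / (1 + ε)), z ∈ St (-h) h := by
      intro z hz
      rw [mem_ball, dist_eq_norm] at hz
      have h1 := (abs_im_le_norm (z - (w - n))).trans_lt hz
      have h2 : (z - (w - n)).im = z.im - w.im := by simp
      rw [h2, abs_lt] at h1
      exact ⟨by linarith [h1.1], by linarith [h1.2]⟩
    have hsh : ∀ z ∈ ball (w - n) ((h - w.im) / (1 + ε)), z + n ∈ ball w ((h - w.im) / (1 + ε)) := by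
      intro z hz
      rw [mem_ball, dist_eq_norm] at hz ⊢
      have : z + n - w = z - (w - n) := by ring
      rwa [this]
    refine hDU j (w - n) ?_ ?_ ?_ ?_
    · have e : (w - n).re = x := by rw [hx]; simp
      rw [e, abs_lt]
      constructor <;> linarith
    · rw [hdw]
      exact hd0
    · rw [hdw]
      exact hws.trans_le (hs j hjN)
    · rw [hdw]
      refine ⟨hr0, ?_, ?_⟩
      · exact {
          d1 := fun z hz => hY.1.d1 z (hball z hz)
          d1' := fun z hz => hY.1.d1' z (hball z hz)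
          d2 := fun z hz => hY.1.d2 z (hball z hz)
          d2' := fun z hz => hY.1.d2' z (hball z hz)
          wr := fun z hz => hY.1.wr z (hball z hz) }
      · intro u hu v hv huv
        have h1 := hinj _ (hsh u hu) _ (hsh v hv) (by rw [s_add_int hP (hball u hu) (hball v hv)]; exact huv)
        exact add_right_cancel h1
  refine ⟨ε, hε, s₀, hs₀, fun w hw hws => ?_⟩
  rcases le_or_gt 0 w.im with h0 | h0
  · rw [abs_of_nonneg h0] at hws ⊢
    exact upper w hw h0 hws
  · rw [abs_of_neg h0] at hws ⊢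
    intro hinj
    have hcw : conj w ∈ St (-h) h := ⟨by rw [conj_im]; linarith [hw.2], by rw [conj_im]; linarith [hw.1]⟩
    have hr1 : (h - -w.im) / (1 + ε) < h - -w.im := by
      rw [div_lt_iff₀ (by linarith)]
      have : 0 < h - -w.im := by linarith [hw.1]
      nlinarith
    refine upper (conj w) hcw (by rw [conj_im]; linarith) (by rw [conj_im]; exact hws) ?_
    rw [conj_im]
    intro u hu v hv huv
    have hball : ∀ z ∈ ball (conj w) ((h - -w.im) / (1 + ε)), z ∈ St (-h) h := by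
      intro z hz
      rw [mem_ball, dist_eq_norm] at hz
      have h1 := (abs_im_le_norm (z - conj w)).trans_lt hz
      have h2 : (z - conj w).im = z.im + w.im := by simp
      rw [h2, abs_lt] at h1
      exact ⟨by linarith [h1.1], by linarith [h1.2]⟩
    have hcb : ∀ z ∈ ball (conj w) ((h - -w.im) / (1 + ε)), conj z ∈ ball w ((h - -w.im) / (1 + ε)) := by
      intro z hz
      rw [mem_ball, dist_eq_norm] at hz ⊢
      have : conj z - w = conj (z - conj w) := by simp
      rw [this, norm_conj]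
      exact hz
    have h1 := hinj _ (hcb u hu) _ (hcb v hv)
      ((refl_s hN.toConE hY (hball u hu) (hball v hv)).2 huv)
    have h2 := congrArg conj h1
    rwa [conj_conj, conj_conj] at h2

end Pool.Agent.MP_ae5b4e_an_NB4H
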