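import Pool.Agent.Lib.MP_ae5b4e_an_NB4.StripB
import Pool.Agent.Lib.MP_ae5b4e_an_NB2.Sys

/-!
# MP_ae5b4e_an, NB_4 part H: the Schwarzian bound in the coordinate of the disc
-/

noncomputable section

namespace Pool.Agent.MP_ae5b4e_an_NB4H

open Complex Set Filter Topology Metric
open Pool.Agent.MP_ae5b4e_an_NBT (St)
open Pool.Agent.MP_ae5b4e_an_NB2 (Sys)
open Pool.Agent.MP_ae5b4e_an_NB4

variable {Y : Sys} {h : ℝ}

private theorem QBd_open (h : ℝ) : IsOpen (St (-h) h) := by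
  have e : St (-h) h = {z : ℂ | -h < z.im} ∩ {z : ℂ | z.im < h} := rfl
  rw [e]
  exact (isOpen_lt continuous_const continuous_im).inter (isOpen_lt continuous_im continuous_const)

/-- `Q y1 = - (y1')'` and `Q y2 = - (y2')'` are analytic, and `Q = (Q y1) y2' - (Q y2) y1'` by the
Wronskian. -/
theorem Q_an (hY : Y.On (St (-h) h)) : AnalyticOnNhd ℂ Y.Q (St (-h) h) := by
  have hS := QBd_open h
  intro z hz
  have h1 : AnalyticAt ℂ (fun w => -deriv Y.y1' w * Y.y2' w + deriv Y.y2' w * Y.y1' w) z :=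
    ((Sys.an_y1' hY hS).deriv z hz).neg.mul (Sys.an_y2' hY hS z hz) |>.add
      (((Sys.an_y2' hY hS).deriv z hz).mul (Sys.an_y1' hY hS z hz))
  refine h1.congr ?_
  filter_upwards [hS.mem_nhds hz] with w hw
  rw [(hY.d1' w hw).deriv, (hY.d2' w hw).deriv]
  have := hY.wr w hw
  linear_combination (Y.Q w) * this

/-- `D (l) = (4h/π) cos (π Im l / 2h) ≤ 2 (h - |Im l|)` (`cos (π/2 - x) = sin x ≤ x`). -/
theorem cos_le (hh : 0 < h) {y : ℝ} (hy : |y| < h) :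
    4 * h / Real.pi * Real.cos (Real.pi * y / (2 * h)) ≤ 2 * (h - |y|) := by
  have hp := Real.pi_pos
  have h1 : Real.cos (Real.pi * y / (2 * h)) = Real.sin (Real.pi * (h - |y|) / (2 * h)) := by
    rw [← Real.cos_abs, abs_div, abs_mul, abs_of_pos hp, abs_of_pos (by positivity : 0 < 2 * h),
      ← Real.sin_pi_div_two_sub]
    congr 1
    field_simp
  have h2 : Real.sin (Real.pi * (h - |y|) / (2 * h)) ≤ Real.pi * (h - |y|) / (2 * h) :=
    Real.sin_le (by have := abs_nonneg y; have : 0 < h - |y| := by linarith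
                    positivity)
  rw [h1]
  calc 4 * h / Real.pi * Real.sin (Real.pi * (h - |y|) / (2 * h))
      ≤ 4 * h / Real.pi * (Real.pi * (h - |y|) / (2 * h)) := by gcongr
    _ = 2 * (h - |y|) := by
      field_simp
      ring

private theorem QBd_dist {z : ℂ} : 1 - ‖z‖ ^ 2 ≤ ‖1 - z ^ 2‖ := by
  have h1 := norm_sub_norm_le (1 : ℂ) (z ^ 2)
  rw [norm_one, norm_pow] at h1
  exact h1

/-- With `l = phi h z`: `‖φ'‖ (1 - |z|²) = D (l)` (`psi_conf`, `psi_phi`), and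
`1 - |z|² ≤ |1 - z²|`. -/
theorem qb_of (hh : 0 < h) (hY : Y.On (St (-h) h)) {C : ℝ} (hC0 : 0 ≤ C)
    (hC : ∀ t ∈ St (-h) h, ‖Y.Q t‖ * (h - |t.im|) ^ 2 ≤ C) : QB (dsys Y h) (4 * C + 1) := by
  have hp := Real.pi_pos
  have hlt : ∀ z ∈ ball (0:ℂ) 1, 0 < 1 - ‖z‖ ^ 2 := by
    intro z hz
    rw [mem_ball_zero_iff] at hz
    nlinarith [norm_nonneg z]
  have hne : ∀ z ∈ ball (0:ℂ) 1, (1 - z ^ 2 : ℂ) ≠ 0 := by
    intro z hz h0
    have h1 := QBd_dist (z := z)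
    rw [h0, norm_zero] at h1
    have := hlt z hz
    linarith
  refine ⟨dsys_on hh hY, ?_, ?_⟩
  · intro z hz
    have h1 : AnalyticAt ℂ (phi h) z := by
      have hd : DifferentiableOn ℂ (phi h) (ball 0 1) := fun w hw =>
        (phi_deriv hh hw).differentiableAt.differentiableWithinAt
      exact hd.analyticAt (isOpen_ball.mem_nhds hz)
    have h2 : AnalyticAt ℂ (fun w => Y.Q (phi h w)) z :=
      AnalyticAt.fun_comp (Q_an hY _ (phi_mem hh hz)) h1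
    have h3 : AnalyticAt ℂ (fun w : ℂ => 1 - w ^ 2) z :=
      analyticAt_const.sub (analyticAt_id.pow 2)
    have h4 : AnalyticAt ℂ (fun w : ℂ => 4 * h / Real.pi / (1 - w ^ 2)) z :=
      (analyticAt_const (v := (4 * h / Real.pi : ℂ))).div h3 (hne z hz)
    exact (h2.mul (h4.pow 2)).add (analyticAt_const.div (h3.pow 2) (pow_ne_zero 2 (hne z hz)))
  · intro z hz
    set l := phi h z with hl
    have hlS := phi_mem hh hz
    rw [← hl] at hlS
    have hz1 := hlt z hz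
    have hpz : psi h l = z := psi_phi hh hz
    have hconf := psi_conf hh hlS
    rw [hpz] at hconf
    have hn0 : 0 < ‖1 - z ^ 2‖ := norm_pos_iff.2 (hne z hz)
    set D := 4 * h / Real.pi * Real.cos (Real.pi * l.im / (2 * h)) with hD
    have e1 : ‖((Real.pi / (4 * h) : ℝ) : ℂ) * (1 - z ^ 2)‖ =
        Real.pi / (4 * h) * ‖1 - z ^ 2‖ := by
      rw [norm_mul, Complex.norm_real, Real.norm_of_nonneg (by positivity)]
    have e2 : ‖(4 * h / Real.pi / (1 - z ^ 2) : ℂ)‖ = 4 * h / Real.pi / ‖1 - z ^ 2‖ := by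
      have e : (4 * (h:ℂ) / (Real.pi : ℂ)) = ((4 * h / Real.pi : ℝ) : ℂ) := by push_cast; rfl
      rw [norm_div, e, Complex.norm_real, Real.norm_of_nonneg (by positivity)]
    have e3 : ‖(4 * h / Real.pi / (1 - z ^ 2) : ℂ)‖ * (1 - ‖z‖ ^ 2) = D := by
      rw [e2, hconf, e1]
      field_simp
    have him : |l.im| < h := abs_lt.2 ⟨hlS.1, hlS.2⟩
    have hD2 : D ≤ 2 * (h - |l.im|) := cos_le hh him
    have hD0 : 0 ≤ D := by
      rw [← e3]
      positivity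
    have e4 : ‖(dsys Y h).Q z‖ ≤ ‖Y.Q l‖ * ‖(4 * h / Real.pi / (1 - z ^ 2) : ℂ)‖ ^ 2 +
        1 / ‖1 - z ^ 2‖ ^ 2 := by
      have : (dsys Y h).Q z = Y.Q l * (4 * h / Real.pi / (1 - z ^ 2)) ^ 2 + 1 / (1 - z ^ 2) ^ 2 := rfl
      rw [this]
      refine (norm_add_le _ _).trans (le_of_eq ?_)
      have e5 : ‖(1 / (1 - z ^ 2) ^ 2 : ℂ)‖ = 1 / ‖1 - z ^ 2‖ ^ 2 := by
        rw [norm_div, norm_one, norm_pow]
      rw [norm_mul, norm_pow, e5]
    calc ‖(dsys Y h).Q z‖ * (1 - ‖z‖ ^ 2) ^ 2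
        ≤ (‖Y.Q l‖ * ‖(4 * h / Real.pi / (1 - z ^ 2) : ℂ)‖ ^ 2 + 1 / ‖1 - z ^ 2‖ ^ 2) *
          (1 - ‖z‖ ^ 2) ^ 2 := by gcongr
      _ = ‖Y.Q l‖ * (‖(4 * h / Real.pi / (1 - z ^ 2) : ℂ)‖ * (1 - ‖z‖ ^ 2)) ^ 2 +
          (1 - ‖z‖ ^ 2) ^ 2 / ‖1 - z ^ 2‖ ^ 2 := by ring
      _ ≤ 4 * C + 1 := by
        rw [e3]
        have h5 : ‖Y.Q l‖ * D ^ 2 ≤ 4 * C := by
          calc ‖Y.Q l‖ * D ^ 2 ≤ ‖Y.Q l‖ * (2 * (h - |l.im|)) ^ 2 := by gcongr
            _ = 4 * (‖Y.Q l‖ * (h - |l.im|) ^ 2) := by ring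
            _ ≤ 4 * C := by
              have := hC l hlS
              linarith
        have h6 : (1 - ‖z‖ ^ 2) ^ 2 / ‖1 - z ^ 2‖ ^ 2 ≤ 1 := by
          rw [div_le_one (by positivity)]
          exact pow_le_pow_left₀ hz1.le QBd_dist 2
        linarith

end Pool.Agent.MP_ae5b4e_an_NB4H
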