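import Pool.Agent.Lib.MP_ae5b4e_an_NB4H.Chain

/-!
# MP_ae5b4e_an, NB_4 part H: the product of the squares of the sides is constant
-/

noncomputable section

namespace Pool.Agent.MP_ae5b4e_an_NB4H

open Complex Set Filter Topology Metric
open Pool.Agent.MP_ae5b4e_an_NBT (St isOpen_St convex_St)
open Pool.Agent.MP_ae5b4e_an_NB2 (Sys)
open Pool.Agent.MP_ae5b4e_an_NB4

variable {Y : Sys} {h δ : ℝ} {L : ℂ × ℂ → ℂ} {t : ℂ} {q : ℕ}

theorem prd_zz_ne (hL : LabH Y h δ L) [NeZero q] (hq : 2 / δ < q) (ht : |t.im| < δ / 2) :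
    prd Y q (zz L q t) ≠ 0 := by
  unfold prd
  rw [Finset.prod_ne_zero_iff]
  intro n _
  exact pow_ne_zero 2 (s_zz_ne hL hq ht n)

/-- With `l n = lab q (zz L q t) n`, `s n = s (l (n+1), l n)`,
`p n = c (l (n+1), l n) / s (l (n+1), l n)`: the node relation says
`p (n+1) = sd (l (n+1), l n) / s n` (`sd (w, l) = c (l, w)`, `s (w, l) = - s (l, w)`), so
`s n' = s n (p (n+1) l (n+1)' - p n l n')` (`s_hasDerivAt`). -/
theorem s_zz_deriv (hL : LabH Y h δ L) [NeZero q] (hq : 2 / δ < q) (ht : |t.im| < δ / 2) (n : ℤ) :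
    HasDerivAt (fun x => Y.s (lab q (zz L q x) (n + 1)) (lab q (zz L q x) n))
      (Y.s (lab q (zz L q t) (n + 1)) (lab q (zz L q t) n) *
        (Y.c (lab q (zz L q t) (n + 2)) (lab q (zz L q t) (n + 1)) /
            Y.s (lab q (zz L q t) (n + 2)) (lab q (zz L q t) (n + 1)) *
            deriv (fun s => L (s, 1 / q)) (t + ((n + 1 : ℤ) : ℂ) / q) -
          Y.c (lab q (zz L q t) (n + 1)) (lab q (zz L q t) n) /
            Y.s (lab q (zz L q t) (n + 1)) (lab q (zz L q t) n) *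
            deriv (fun s => L (s, 1 / q)) (t + (n : ℂ) / q))) t := by
  have h1 := s_hasDerivAt hL.on (lab_deriv hL hq ht (n + 1)).1 (lab_deriv hL hq ht n).1
    (chain_mem hL hq ht (n + 1)).2 (chain_mem hL hq ht n).2
  refine h1.congr_deriv ?_
  have h2 := nd_zz hL hq ht (n + 1)
  have h3 := s_zz_ne hL hq ht n
  have h4 := s_zz_ne hL hq ht (n + 1)
  rw [show n + 1 + 1 = n + 2 by ring] at h4
  unfold nd at h2
  rw [show n + 1 + 1 = n + 2 by ring, show n + 1 - 1 = n by ring] at h2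
  rw [sd_eq]
  have h5 : Y.s (lab q (zz L q t) n) (lab q (zz L q t) (n + 1)) =
      -Y.s (lab q (zz L q t) (n + 1)) (lab q (zz L q t) n) := Sys.s_symm
  rw [h5] at h2
  have h6 : Y.c (lab q (zz L q t) n) (lab q (zz L q t) (n + 1)) =
      Y.s (lab q (zz L q t) (n + 1)) (lab q (zz L q t) n) *
        (Y.c (lab q (zz L q t) (n + 2)) (lab q (zz L q t) (n + 1)) /
          Y.s (lab q (zz L q t) (n + 2)) (lab q (zz L q t) (n + 1))) := by
    field_simp
    linear_combination h2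
  rw [h6]
  field_simp

namespace Prd

theorem lab_add (q : ℕ) [NeZero q] (z : ZMod q → ℂ) (n : ℤ) :
    lab q z (n + q) = lab q z n + 1 := by
  have hq : (q : ℤ) ≠ 0 := by exact_mod_cast NeZero.ne q
  have h1 : (((n + (q : ℤ) : ℤ)) : ZMod q) = ((n : ℤ) : ZMod q) := by
    push_cast
    rw [ZMod.natCast_self, add_zero]
  have h2 : (n + (q : ℤ)) / (q : ℤ) = n / (q : ℤ) + 1 := by
    rw [Int.add_ediv_of_dvd_right (dvd_refl _), Int.ediv_self hq]
  unfold lab
  rw [h1, h2]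
  push_cast
  ring

/-- the quotient `c / s` times the velocity -/
def EE (Y : Sys) (L : ℂ × ℂ → ℂ) (q : ℕ) (t : ℂ) (n : ℤ) : ℂ :=
  Y.c (lab q (zz L q t) (n + 1)) (lab q (zz L q t) n) /
    Y.s (lab q (zz L q t) (n + 1)) (lab q (zz L q t) n) *
    deriv (fun s => L (s, 1 / q)) (t + (n : ℂ) / q)

/-- the product over the first `m` sides -/
theorem prod_deriv (hL : LabH Y h δ L) [NeZero q] (hq : 2 / δ < q) (ht : |t.im| < δ / 2) (m : ℕ) :
    HasDerivAt (fun x => ∏ n ∈ Finset.range m,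
        (Y.s (lab q (zz L q x) ((n : ℤ) + 1)) (lab q (zz L q x) n)) ^ 2)
      ((∏ n ∈ Finset.range m,
        (Y.s (lab q (zz L q t) ((n : ℤ) + 1)) (lab q (zz L q t) n)) ^ 2) *
          (2 * (EE Y L q t m - EE Y L q t 0))) t := by
  induction m with
  | zero =>
    have h1 : HasDerivAt (fun _ : ℂ => (1 : ℂ)) 0 t := hasDerivAt_const t 1
    simpa using h1
  | succ m ih =>
    have h1 := (s_zz_deriv hL hq ht (m : ℤ)).pow 2
    have h2 := ih.mul h1
    simp only [Finset.prod_range_succ]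
    refine h2.congr_deriv ?_
    have h3 : EE Y L q t ((m + 1 : ℕ) : ℤ) =
        Y.c (lab q (zz L q t) ((m : ℤ) + 2)) (lab q (zz L q t) ((m : ℤ) + 1)) /
            Y.s (lab q (zz L q t) ((m : ℤ) + 2)) (lab q (zz L q t) ((m : ℤ) + 1)) *
            deriv (fun s => L (s, 1 / q)) (t + (((m : ℤ) + 1 : ℤ) : ℂ) / q) := by
      unfold EE
      push_cast
      rw [show (m : ℤ) + 1 + 1 = m + 2 by ring]
    have h4 : EE Y L q t (m : ℤ) = Y.c (lab q (zz L q t) ((m : ℤ) + 1)) (lab q (zz L q t) m) /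
            Y.s (lab q (zz L q t) ((m : ℤ) + 1)) (lab q (zz L q t) m) *
            deriv (fun s => L (s, 1 / q)) (t + ((m : ℤ) : ℂ) / q) := rfl
    rw [← h3, ← h4]
    simp only [Pi.pow_apply, Nat.cast_ofNat, Nat.add_one_sub_one, pow_one]
    ring

/-- the last term is equal to the first one -/
theorem EE_per (hL : LabH Y h δ L) [NeZero q] (hq : 2 / δ < q) (ht : |t.im| < δ / 2) :
    EE Y L q t q = EE Y L q t 0 := by
  have hq0 : (q : ℂ) ≠ 0 := by exact_mod_cast NeZero.ne q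
  have h1 : lab q (zz L q t) (q : ℤ) = lab q (zz L q t) 0 + ((1 : ℤ) : ℂ) := by
    have := lab_add q (zz L q t) 0
    rw [zero_add] at this
    rw [this]
    push_cast
    rfl
  have h2 : lab q (zz L q t) ((q : ℤ) + 1) = lab q (zz L q t) (0 + 1) + ((1 : ℤ) : ℂ) := by
    have := lab_add q (zz L q t) (0 + 1)
    rw [show ((0 : ℤ) + 1) + (q : ℤ) = (q : ℤ) + 1 by ring] at this
    rw [this]
    push_cast
    rfl
  have hm0 := (chain_mem hL hq ht 0).2
  have hm1 := (chain_mem hL hq ht (0 + 1)).2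
  have h3 : deriv (fun s => L (s, 1 / q)) (t + ((q : ℤ) : ℂ) / q) =
      deriv (fun s => L (s, 1 / q)) (t + ((0 : ℤ) : ℂ) / q) := by
    have e1 : t + ((q : ℤ) : ℂ) / q = t + 1 := by
      push_cast
      rw [div_self hq0]
    have e2 : t + ((0 : ℤ) : ℂ) / q = t := by simp
    rw [e1, e2, ← deriv_comp_add_const]
    have h4 : (fun s : ℂ => L (s + 1, 1 / (q : ℂ))) =ᶠ[𝓝 t] fun s => L (s, 1 / (q : ℂ)) + 1 := by
      have h5 : ∀ᶠ s in 𝓝 t, s ∈ St (-(δ / 2)) (δ / 2) :=
        (isOpen_St _ _).mem_nhds (abs_lt.1 ht)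
      filter_upwards [h5] with s hs
      have h6 : |s.im| < δ / 2 := abs_lt.2 hs
      have h7 := (chain_mem hL hq h6 0).1
      have e3 : ((s + ((0 : ℤ) : ℂ) / q, 1 / (q : ℂ)) : ℂ × ℂ) = (s, 1 / (q : ℂ)) := by simp
      rw [e3] at h7
      exact hL.lper _ h7
    rw [h4.deriv_eq, deriv_add_const]
  unfold EE
  rw [h3, h1, h2, c_add_int hL.per hm1 hm0, s_add_int hL.per hm1 hm0]

end Prd

/-- The logarithmic derivative of `prd` is `2 ∑ (p (n+1) l (n+1)' - p n l n')`, a telescoping sum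
over a period: `lab (n + q) = lab n + 1`, `c` and `s` are invariant under integer translations and
`deriv (L (·, 1/q))` has period `1`. So the derivative of `prd` is zero on the convex strip. -/
theorem prd_zz_const (hL : LabH Y h δ L) [NeZero q] (hq : 2 / δ < q) {t t' : ℂ}
    (ht : |t.im| < δ / 2) (ht' : |t'.im| < δ / 2) : prd Y q (zz L q t) = prd Y q (zz L q t') := by
  have hd : ∀ x ∈ St (-(δ / 2)) (δ / 2), HasDerivAt (fun x => prd Y q (zz L q x)) 0 x := by
    intro x hx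
    have h1 := Prd.prod_deriv hL hq (abs_lt.2 hx) q
    rw [Prd.EE_per hL hq (abs_lt.2 hx), sub_self, mul_zero, mul_zero] at h1
    exact h1
  exact (isOpen_St _ _).is_const_of_deriv_eq_zero (𝕜 := ℂ)
    (convex_St _ _).isPreconnected (f := fun x => prd Y q (zz L q x))
    (fun z hz => (hd z hz).differentiableAt.differentiableWithinAt)
    (fun z hz => (hd z hz).deriv) (abs_lt.1 ht) (abs_lt.1 ht')

end Pool.Agent.MP_ae5b4e_an_NB4H
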