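import Pool.Agent.Lib.MP_ae5b4e_an_NB4H.RmN
import Pool.Agent.Lib.MP_ae5b4e_an_NB4H.Prd

/-!
# MP_ae5b4e_an, NB_4 part H: the curve of real chains
-/

noncomputable section

namespace Pool.Agent.MP_ae5b4e_an_NB4H

open Complex Set Filter Topology Metric
open Pool.Agent.MP_ae5b4e_an_NBT (St)
open Pool.Agent.MP_ae5b4e_an_NB2 (Sys)
open Pool.Agent.MP_ae5b4e_an_NB4

variable {Y : Sys} {h δ : ℝ} {L : ℂ × ℂ → ℂ} {t : ℂ} {q : ℕ}

private theorem RealC_convex (a : ℝ) : Convex ℝ {t : ℂ | |t.im| < a} := by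
  have e : {t : ℂ | |t.im| < a} = {t : ℂ | -a < t.im} ∩ {t : ℂ | t.im < a} := by
    ext z
    simp only [mem_setOf_eq, mem_inter_iff, abs_lt]
  rw [e]
  have hl : IsLinearMap ℝ Complex.im := ⟨fun x y => by simp, fun c x => by simp⟩
  exact (convex_halfSpace_gt hl (-a)).inter (convex_halfSpace_lt hl a)

/-- `|∂_t L - 1| ≤ 1/2` on the convex box: mean value inequality -/
theorem L_lip (hL : LabH Y h δ L) {a b ρ : ℂ} (ha : (a, ρ) ∈ Bx δ) (hb : (b, ρ) ∈ Bx δ) :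
    ‖L (a, ρ) - L (b, ρ) - (a - b)‖ ≤ ‖a - b‖ / 2 := by
  have hρ : ‖ρ‖ < δ := ha.2
  have hd : ∀ x ∈ {t : ℂ | |t.im| < δ}, DifferentiableAt ℂ (fun s => L (s, ρ)) x := by
    intro x hx
    have h1 : DifferentiableAt ℂ (fun s : ℂ => ((s, ρ) : ℂ × ℂ)) x := by fun_prop
    exact DifferentiableAt.comp (f := fun s : ℂ => ((s, ρ) : ℂ × ℂ)) x
      (hL.an (x, ρ) ⟨hx, hρ⟩).differentiableAt h1
  have h2 : ∀ x ∈ {t : ℂ | |t.im| < δ}, HasDerivWithinAt (fun s => L (s, ρ) - s)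
      (deriv (fun s => L (s, ρ)) x - 1) {t : ℂ | |t.im| < δ} x := by
    intro x hx
    exact ((hd x hx).hasDerivAt.sub (hasDerivAt_id x)).hasDerivWithinAt
  have h3 := (RealC_convex δ).norm_image_sub_le_of_norm_hasDerivWithin_le (C := 1 / 2) h2
    (fun x hx => hL.dt (x, ρ) ⟨hx, hρ⟩) hb.1 ha.1
  have e : L (a, ρ) - L (b, ρ) - (a - b) = L (a, ρ) - a - (L (b, ρ) - b) := by ring
  rw [e]
  linarith

private theorem RealC_q (hL : LabH Y h δ L) [NeZero q] (hq : 2 / δ < q) :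
    ‖(1 / q : ℂ)‖ < δ := by
  have h1 := (chain_mem hL hq (t := 0) (by simpa using half_pos hL.pos) 0).1
  exact h1.2

private theorem RealC_inj (hL : LabH Y h δ L) [NeZero q] (hq : 2 / δ < q) {a b : ℝ}
    (hab : L ((a : ℂ), 1 / q) = L ((b : ℂ), 1 / q)) : a = b := by
  have hm : ∀ x : ℝ, (((x : ℂ), 1 / q) : ℂ × ℂ) ∈ Bx δ := by
    intro x
    refine ⟨?_, RealC_q hL hq⟩
    show |((x : ℂ)).im| < δ
    rw [ofReal_im, abs_zero]
    exact hL.pos
  have h1 := L_lip hL (hm a) (hm b)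
  rw [hab, sub_self, zero_sub, norm_neg] at h1
  have h2 : ‖(a : ℂ) - b‖ = 0 := by
    have := norm_nonneg ((a : ℂ) - b)
    linarith
  rw [norm_eq_zero, sub_eq_zero] at h2
  exact_mod_cast h2

/-- `L (·, 1/q)` is real and increasing on the real axis, and `L (x + 1) = L x + 1`; so the labels
of the chain of `t = 0` are different modulo `1`. Field `inj`. -/
theorem s_zz_real (hL : LabH Y h δ L) [NeZero q] (hq : 2 / δ < q) {i j : ZMod q} (hij : i ≠ j) :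
    Y.s (zz L q 0 i) (zz L q 0 j) ≠ 0 := by
  intro h0
  have hq0 : (0:ℝ) < q := Nat.cast_pos.2 (Nat.pos_of_ne_zero (NeZero.ne q))
  have hqδ : |(1 / q : ℝ)| < δ := by
    have h1 := RealC_q hL hq
    have e : (1 / q : ℂ) = ((1 / q : ℝ) : ℂ) := by push_cast; rfl
    rwa [e, Complex.norm_real, Real.norm_eq_abs] at h1
  have hre : ∀ k : ZMod q, zz L q 0 k = (((zz L q 0 k).re : ℝ) : ℂ) := by
    intro k
    have h1 := hL.real ((k.val : ℝ) / q) (1 / q) hqδ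
    have e : zz L q 0 k = L ((((k.val : ℝ) / q : ℝ) : ℂ), ((1 / q : ℝ) : ℂ)) := by
      unfold zz
      rw [zero_add]
      push_cast
      rfl
    rw [← e] at h1
    apply Complex.ext
    · simp
    · simpa using h1
  rw [hre i, hre j] at h0
  obtain ⟨n, hn⟩ := hL.inj _ _ h0
  have h1 : zz L q 0 i = zz L q 0 j + n := by
    rw [hre i, hre j, hn]
    push_cast
    rfl
  have hm : (((((j.val : ℝ) / q : ℝ) : ℂ), 1 / q) : ℂ × ℂ) ∈ Bx δ := by
    refine ⟨?_, RealC_q hL hq⟩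
    show |((((j.val : ℝ) / q : ℝ) : ℂ)).im| < δ
    rw [ofReal_im, abs_zero]
    exact hL.pos
  have h2 := L_add_int hL hm n
  have h3 : L ((((i.val : ℝ) / q : ℝ) : ℂ), 1 / q) =
      L ((((j.val : ℝ) / q + n : ℝ) : ℂ), 1 / q) := by
    have e1 : zz L q 0 i = L ((((i.val : ℝ) / q : ℝ) : ℂ), 1 / q) := by
      unfold zz
      rw [zero_add]
      push_cast
      rfl
    have e2 : zz L q 0 j = L ((((j.val : ℝ) / q : ℝ) : ℂ), 1 / q) := by
      unfold zz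
      rw [zero_add]
      push_cast
      rfl
    rw [← e1, h1, e2, ← h2]
    push_cast
    rfl
  have h4 := RealC_inj hL hq h3
  have h5 : (i.val : ℝ) = j.val + n * q := by
    field_simp at h4
    linarith
  have h6 : (i.val : ℤ) = j.val + n * q := by exact_mod_cast h5
  apply hij
  have h7 : ((i.val : ℤ) : ZMod q) = ((j.val + n * q : ℤ) : ZMod q) := by rw [h6]
  push_cast at h7
  simpa using h7

/-- field `real` of `Bdd`: `C₀` is the image of the strip `|Im t| < δ / 2` under `zz`. -/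
theorem real_field (hL : LabH Y h δ L) [NeZero q] (hq : 2 / δ < q) (hq3 : 3 ≤ q) :
    ∃ π₀ : ℂ, π₀ ≠ 0 ∧ ∃ C₀ ⊆ FF Y h q π₀, IsPreconnected C₀ ∧ C₀.Nontrivial ∧
      ∃ z ∈ C₀, Rm Y q z ≠ 0 ∧ ∀ i j, i ≠ j → Y.s (z i) (z j) ≠ 0 := by
  have h0 : |(0:ℂ).im| < δ / 2 := by simpa using half_pos hL.pos
  refine ⟨prd Y q (zz L q 0), prd_zz_ne hL hq h0, zz L q '' {t : ℂ | |t.im| < δ / 2}, ?_, ?_, ?_,
    zz L q 0, mem_image_of_mem _ h0, Rm_zz_ne hL hq hq3 h0, fun i j hij => s_zz_real hL hq hij⟩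
  · rintro _ ⟨t, ht, rfl⟩
    exact ⟨zz_mem_Sq hL hq ht, fun n => nd_zz hL hq ht n, prd_zz_const hL hq ht h0⟩
  · exact (RealC_convex (δ / 2)).isPreconnected.image _ (zz_cont hL hq)
  · have h1 : |(((1:ℝ) : ℂ)).im| < δ / 2 := by
      rw [ofReal_im, abs_zero]
      exact half_pos hL.pos
    refine ⟨_, mem_image_of_mem _ h0, _, mem_image_of_mem _ h1, ?_⟩
    intro he
    have h2 := congrFun he 0
    unfold zz at h2
    rw [ZMod.val_zero, Nat.cast_zero, zero_div, add_zero, add_zero] at h2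
    have h3 : L (((0:ℝ) : ℂ), 1 / q) = L (((1:ℝ) : ℂ), 1 / q) := by
      rw [ofReal_zero]
      exact h2
    have h4 := RealC_inj hL hq h3
    norm_num at h4

end Pool.Agent.MP_ae5b4e_an_NB4H
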