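import Pool.Agent.Lib.MP_ae5b4e_an_NB4H.Comp
import Pool.Agent.Lib.MP_ae5b4e_an_NB4H.RealC
import Pool.Agent.Lib.MP_ae5b4e_an_NB4H.QBd
import Pool.Agent.Lib.MP_ae5b4e_an_NB4H.NFd

/-!
# MP_ae5b4e_an, NB_4 part H: the data of the bounded case
-/

noncomputable section

namespace Pool.Agent.MP_ae5b4e_an_NB4H

open Complex Set Filter Topology Metric
open Pool.Agent.MP_ae5b4e_an_NBT
open Pool.Agent.MP_ae5b4e_an_NB2 (Sys)
open Pool.Agent.MP_ae5b4e_an_NB4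
open scoped ComplexConjugate

variable {k : ℂ → ℂ} {F G : ℂ × ℂ → ℂ} {c h : ℝ} {Y : Sys}

/-- **part H** -/
theorem exists_bdd (hN : NBd k F c h G) (hY : SysOf Y G h) {C : ℝ}
    (hC : ∀ t ∈ St (-h) h, ‖Y.Q t‖ * (h - |t.im|) ^ 2 ≤ C) :
    ∃ (q₁ : ℝ) (q : ℕ) (_ : NeZero q) (π₀ : ℂ), Bdd Y h q₁ q π₀ := by
  obtain ⟨δ, L, hL⟩ := exists_labH hN hY
  have hh := hL.h_pos
  have hC0 : 0 ≤ C := by
    have h0 : (0:ℂ) ∈ St (-h) h := ⟨by simpa using hh, by simpa using hh⟩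
    refine le_trans ?_ (hC 0 h0)
    positivity
  obtain ⟨n, hn⟩ := exists_nat_gt (2 / δ)
  have hq3 : 3 ≤ n + 3 := by omega
  haveI : NeZero (n + 3) := ⟨by omega⟩
  have hq : 2 / δ < ((n + 3 : ℕ) : ℝ) := by
    push_cast
    linarith
  obtain ⟨π₀, hπ, C₀, hC₀⟩ := real_field (q := n + 3) hL hq hq3
  exact ⟨4 * C + 1, n + 3, inferInstance, π₀, hh, by omega, hL.on, Q_an hL.on, hL.per,
    qb_of hh hL.on hC0 hC, by linarith, nf_of hN hY hC, hπ, C₀, hC₀⟩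

end Pool.Agent.MP_ae5b4e_an_NB4H
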