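import Pool.Agent.Lib.MP_ae5b4e_an_NB4H.Alg
import Pool.Agent.Lib.MP_ae5b4e_an_NBT.ConD
import Pool.Agent.Lib.MP_ae5b4e_an_NBT.DomS

/-!
# MP_ae5b4e_an, NB_4 part H: the fundamental system on the real axis, period and reflection

The limit curve is `sl G 0 = y2 / y1`; on the real axis it is `F (t, 0)`, of modulus one.
-/

noncomputable section

namespace Pool.Agent.MP_ae5b4e_an_NB4H

open Complex Set Filter Topology Metric
open Pool.Agent.MP_ae5b4e_an_NBT
open Pool.Agent.MP_ae5b4e_an_NB2 (Sys)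
open Pool.Agent.MP_ae5b4e_an_NB4
open scoped ComplexConjugate

variable {k : ℂ → ℂ} {F G : ℂ × ℂ → ℂ} {c h : ℝ} {Y : Sys}

/-- `Y` is a fundamental system of the limit curve -/
def SysOf (Y : Sys) (G : ℂ × ℂ → ℂ) (h : ℝ) : Prop :=
  Y.On (St (-h) h) ∧ ∀ t ∈ St (-h) h, (Y.y1 t ≠ 0 → sl G 0 t = Y.y2 t / Y.y1 t) ∧
    (Y.y1 t = 0 → sl G 0 t = 0)

private theorem perY_real_mem {h : ℝ} (hh : 0 < h) (t : ℝ) : (t : ℂ) ∈ St (-h) h := by
  refine ⟨?_, ?_⟩
  · simpa using hh
  · simpa using hh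

private theorem perY_conj_mem {h : ℝ} {z : ℂ} (hz : z ∈ St (-h) h) : conj z ∈ St (-h) h := by
  have h1 := hz.1
  have h2 := hz.2
  refine ⟨?_, ?_⟩
  · rw [conj_im]; linarith
  · rw [conj_im]; linarith

/-- an analytic function on the strip which vanishes on the real axis is zero -/
private theorem perY_id {h : ℝ} (hh : 0 < h) {g : ℂ → ℂ} (hg : AnalyticOnNhd ℂ g (St (-h) h))
    (h0 : ∀ t : ℝ, g t = 0) : ∀ z ∈ St (-h) h, g z = 0 := by
  have hfr : ∃ᶠ z in 𝓝[≠] (0:ℂ), g z = 0 := by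
    rw [Filter.Frequently]
    intro hcon
    rw [eventually_nhdsWithin_iff] at hcon
    have ht : Tendsto (fun x : ℝ => (x : ℂ)) (𝓝 0) (𝓝 0) := by
      have := (continuous_ofReal).tendsto (0:ℝ)
      simpa using this
    have h1 := ht.eventually hcon
    have h2 : ∀ᶠ x : ℝ in 𝓝[≠] (0:ℝ), (x : ℂ) ∈ ({0}ᶜ : Set ℂ) → ¬ g x = 0 :=
      nhdsWithin_le_nhds h1
    obtain ⟨x, hx, hx0⟩ := (h2.and self_mem_nhdsWithin).exists
    refine hx ?_ (h0 x)
    intro h3
    exact hx0 (by simpa using h3)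
  have h00 : (0:ℂ) ∈ St (-h) h := by simpa using perY_real_mem hh 0
  exact fun z hz => hg.eqOn_zero_of_preconnected_of_frequently_eq_zero
    (convex_St (-h) h).isPreconnected h00 hfr hz

private theorem perY_h_pos (hN : ConE k F c h G) : 0 < h := hN.pos.trans hN.hc

/-- `sl G 0 t = F (t, 0)` by `sl_congr`, `sl_of_analyticAt` and `eqG`; `|F (t, 0)| = 1` by `refl`;
so `sl G 0 t ≠ 0` and `y1 t ≠ 0`. -/
theorem real_axis (hN : ConE k F c h G) (hY : SysOf Y G h) (t : ℝ) :
    Y.y1 t ≠ 0 ∧ sl G 0 t = F (t, 0) ∧ F (t, 0) = Y.y2 t / Y.y1 t ∧ ‖F (t, 0)‖ = 1 := by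
  have hc := hN.pos
  have hh := perY_h_pos hN
  have htc : (t : ℂ) ∈ St (-c) c := perY_real_mem hc t
  have h1 : ((t : ℂ), (0 : ℂ)) ∈ St (-c) c ×ˢ ball (0:ℂ) c := ⟨htc, mem_ball_self hc⟩
  have h2 : ((t : ℂ), (0 : ℂ)) ∈ St (-c) c ×ˢ ball (0:ℂ) (c / 4) :=
    ⟨htc, mem_ball_self (by positivity)⟩
  have h3 : sl G 0 t = F (t, 0) := nfM_eq (hN.an _ h1) (hN.eqG _ h2)
  have h4 := hN.refl _ h1
  simp only [conj_ofReal, map_zero] at h4
  have h5 : ‖F (t, 0)‖ = 1 := by
    have h6 := congrArg norm h4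
    rw [norm_mul, RCLike.norm_conj, norm_one] at h6
    nlinarith [norm_nonneg (F ((t:ℂ), 0))]
  have h6 : F (t, 0) ≠ 0 := by
    intro h7
    rw [h7, norm_zero] at h5
    exact zero_ne_one h5
  obtain ⟨h7, h8⟩ := hY.2 t (perY_real_mem hh t)
  have h9 : Y.y1 t ≠ 0 := by
    intro h10
    exact h6 (by rw [← h3, h8 h10])
  exact ⟨h9, h3, by rw [← h3, h7 h9], h5⟩

/-- `y1 v y2 u = y2 v y1 u` gives `F (u, 0) = F (v, 0)`; field `inj` of `Dat`. -/
theorem inj_of (hN : ConE k F c h G) (hY : SysOf Y G h) (u v : ℝ) (hs : Y.s (u : ℂ) (v : ℂ) = 0) :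
    ∃ n : ℤ, u = v + n := by
  obtain ⟨hu1, -, hu2, -⟩ := real_axis hN hY u
  obtain ⟨hv1, -, hv2, -⟩ := real_axis hN hY v
  refine hN.inj u v ?_
  rw [hu2, hv2, div_eq_div_iff hu1 hv1]
  unfold Sys.s at hs
  linear_combination hs

private theorem perY_add_mem {h : ℝ} {z : ℂ} (hz : z ∈ St (-h) h) : z + 1 ∈ St (-h) h := by
  refine ⟨?_, ?_⟩
  · simpa using hz.1
  · simpa using hz.2

/-- The analytic function `z ↦ y2 (z + 1) y1 z - y1 (z + 1) y2 z` vanishes on the real axis (field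
`per` of `Dat`), hence on the strip. Put `e z = y1 (z + 1) y2' z - y2 (z + 1) y1' z`; with the
Wronskian of `Y` at `z`, `y1 (z + 1) = e z y1 z`, `y2 (z + 1) = e z y2 z`. Differentiate these; the
Wronskian at `z + 1` gives `e z ^ 2 = 1`, so `2 e e' = 0`, `e' = 0` and `e` is constant on the
convex strip; then `y1' (z + 1) = e y1' z`. -/
theorem per_of (hN : ConE k F c h G) (hY : SysOf Y G h) : Per Y h := by
  have hc := hN.pos
  have hh := perY_h_pos hN
  have hOn := hY.1
  have hopen := isOpen_St (-h) h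
  have a1 := Sys.an_y1 hOn hopen
  have a1' := Sys.an_y1' hOn hopen
  have a2 := Sys.an_y2 hOn hopen
  have a2' := Sys.an_y2' hOn hopen
  have hsh : ∀ {f : ℂ → ℂ}, AnalyticOnNhd ℂ f (St (-h) h) →
      AnalyticOnNhd ℂ (fun z => f (z + 1)) (St (-h) h) := by
    intro f hf z hz
    exact AnalyticAt.fun_comp (g := f) (f := fun z => z + 1) (hf _ (perY_add_mem hz))
      (analyticAt_id.add analyticAt_const)
  have hg : ∀ z ∈ St (-h) h, Y.y2 (z + 1) * Y.y1 z - Y.y1 (z + 1) * Y.y2 z = 0 := by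
    refine perY_id hh (g := fun z => Y.y2 (z + 1) * Y.y1 z - Y.y1 (z + 1) * Y.y2 z) ?_ ?_
    · exact ((hsh a2).mul a1).sub ((hsh a1).mul a2)
    · intro t
      obtain ⟨h1, -, h2, -⟩ := real_axis hN hY t
      obtain ⟨h3, -, h4, -⟩ := real_axis hN hY (t + 1)
      have h5 := hN.per (t, 0) ⟨perY_real_mem hc t, mem_ball_self hc⟩
      push_cast at h3 h4
      simp only at h5
      rw [h4, h2, div_eq_div_iff h3 h1] at h5
      show Y.y2 (t + 1) * Y.y1 t - Y.y1 (t + 1) * Y.y2 t = 0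
      linear_combination h5
  set e : ℂ → ℂ := fun z => Y.y1 (z + 1) * Y.y2' z - Y.y2 (z + 1) * Y.y1' z with he
  have k1 : ∀ z ∈ St (-h) h, Y.y1 (z + 1) = e z * Y.y1 z := by
    intro z hz
    have hw := hOn.wr z hz
    have h1 := hg z hz
    simp only [he]
    linear_combination (-Y.y1 (z + 1)) * hw + (Y.y1' z) * h1
  have k2 : ∀ z ∈ St (-h) h, Y.y2 (z + 1) = e z * Y.y2 z := by
    intro z hz
    have hw := hOn.wr z hz
    have h1 := hg z hz
    simp only [he]
    linear_combination (-Y.y2 (z + 1)) * hw + (Y.y2' z) * h1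
  have hea : AnalyticOnNhd ℂ e (St (-h) h) := ((hsh a1).mul a2').sub ((hsh a2).mul a1')
  have hed : ∀ z ∈ St (-h) h, HasDerivAt e (deriv e z) z :=
    fun z hz => (hea z hz).differentiableAt.hasDerivAt
  have d1 : ∀ z ∈ St (-h) h, Y.y1' (z + 1) = deriv e z * Y.y1 z + e z * Y.y1' z := by
    intro z hz
    have h1 : HasDerivAt (fun z => Y.y1 (z + 1)) (Y.y1' (z + 1)) z := by
      have := (hOn.d1 _ (perY_add_mem hz)).comp_add_const z 1
      exact this
    have h2 : HasDerivAt (fun z => e z * Y.y1 z) (deriv e z * Y.y1 z + e z * Y.y1' z) z :=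
      (hed z hz).mul (hOn.d1 z hz)
    have h3 : (fun z => Y.y1 (z + 1)) =ᶠ[𝓝 z] fun z => e z * Y.y1 z := by
      filter_upwards [hopen.mem_nhds hz] with w hw using k1 w hw
    exact (h1.congr_of_eventuallyEq h3.symm).unique h2
  have d2 : ∀ z ∈ St (-h) h, Y.y2' (z + 1) = deriv e z * Y.y2 z + e z * Y.y2' z := by
    intro z hz
    have h1 : HasDerivAt (fun z => Y.y2 (z + 1)) (Y.y2' (z + 1)) z := by
      have := (hOn.d2 _ (perY_add_mem hz)).comp_add_const z 1
      exact this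
    have h2 : HasDerivAt (fun z => e z * Y.y2 z) (deriv e z * Y.y2 z + e z * Y.y2' z) z :=
      (hed z hz).mul (hOn.d2 z hz)
    have h3 : (fun z => Y.y2 (z + 1)) =ᶠ[𝓝 z] fun z => e z * Y.y2 z := by
      filter_upwards [hopen.mem_nhds hz] with w hw using k2 w hw
    exact (h1.congr_of_eventuallyEq h3.symm).unique h2
  have hsq : ∀ z ∈ St (-h) h, e z ^ 2 = 1 := by
    intro z hz
    have hw := hOn.wr z hz
    have hw1 := hOn.wr _ (perY_add_mem hz)
    rw [k1 z hz, k2 z hz, d1 z hz, d2 z hz] at hw1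
    linear_combination hw1 - (e z ^ 2) * hw
  have hde : ∀ z ∈ St (-h) h, deriv e z = 0 := by
    intro z hz
    have h1 : HasDerivAt (fun z => e z ^ 2) (2 * e z ^ 1 * deriv e z) z := by
      have h7 := (hed z hz).mul (hed z hz)
      have h8 : (fun z => e z ^ 2) = fun z => e z * e z := by
        funext w
        ring
      rw [h8]
      refine h7.congr_deriv ?_
      ring
    have h3 : (fun z => e z ^ 2) =ᶠ[𝓝 z] fun _ => 1 := by
      filter_upwards [hopen.mem_nhds hz] with w hw using hsq w hw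
    have h4 := (h1.congr_of_eventuallyEq h3.symm).unique (hasDerivAt_const z 1)
    have h5 : e z ≠ 0 := by
      intro h6
      have := hsq z hz
      rw [h6] at this
      norm_num at this
    rw [pow_one] at h4
    rcases mul_eq_zero.1 h4 with h6 | h6
    · rcases mul_eq_zero.1 h6 with h7 | h7
      · norm_num at h7
      · exact absurd h7 h5
    · exact h6
  have h00 : (0:ℂ) ∈ St (-h) h := by simpa using perY_real_mem hh 0
  have hcst : ∀ z ∈ St (-h) h, e z = e 0 := by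
    intro z hz
    exact hopen.is_const_of_deriv_eq_zero (convex_St (-h) h).isPreconnected
      (fun w hw => (hea w hw).differentiableAt.differentiableWithinAt) (fun w hw => hde w hw)
      hz h00
  refine ⟨e 0, hsq 0 h00, fun z hz => ⟨?_, ?_, ?_, ?_⟩⟩
  · rw [k1 z hz, hcst z hz]
  · rw [k2 z hz, hcst z hz]
  · rw [d1 z hz, hde z hz, hcst z hz]; ring
  · rw [d2 z hz, hde z hz, hcst z hz]; ring

private theorem perY_lam {a b p q : ℂ} (hab : a ≠ 0 ∨ b ≠ 0) (hpq : p ≠ 0 ∨ q ≠ 0)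
    (h : p * a = q * b) : ∃ x : ℂ, x ≠ 0 ∧ q = x * a ∧ p = x * b := by
  by_cases ha : a = 0
  · have hb : b ≠ 0 := by
      rcases hab with h1 | h1
      · exact absurd ha h1
      · exact h1
    rw [ha, mul_zero] at h
    have hq : q = 0 := by
      rcases mul_eq_zero.1 h.symm with h1 | h1
      · exact h1
      · exact absurd h1 hb
    have hp : p ≠ 0 := by
      rcases hpq with h1 | h1
      · exact h1
      · exact absurd hq h1
    refine ⟨p / b, div_ne_zero hp hb, ?_, ?_⟩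
    · rw [ha, hq, mul_zero]
    · field_simp
  · have hq : q = q / a * a := by field_simp
    have hp : p = q / a * b := by
      field_simp
      exact h
    refine ⟨q / a, ?_, hq, hp⟩
    intro h1
    rw [h1, zero_mul] at hq hp
    rcases hpq with h2 | h2
    · exact h2 hp
    · exact h2 hq

/-- The analytic function `z ↦ conj (y1 (conj z)) y1 z - conj (y2 (conj z)) y2 z` vanishes on the
real axis (modulus one), hence on the strip. So the vectors `(conj (y2 (conj z)), conj (y1 (conj z)))`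
and `(y1 z, y2 z)` are proportional with a non-zero factor. -/
theorem refl_s (hN : ConE k F c h G) (hY : SysOf Y G h) {u v : ℂ} (hu : u ∈ St (-h) h)
    (hv : v ∈ St (-h) h) : Y.s (conj u) (conj v) = 0 ↔ Y.s u v = 0 := by
  have hh := perY_h_pos hN
  have hOn := hY.1
  have hopen := isOpen_St (-h) h
  have a1 := Sys.an_y1 hOn hopen
  have a2 := Sys.an_y2 hOn hopen
  have hcj : ∀ {f : ℂ → ℂ}, AnalyticOnNhd ℂ f (St (-h) h) →
      AnalyticOnNhd ℂ (fun z => conj (f (conj z))) (St (-h) h) := by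
    intro f hf
    refine DifferentiableOn.analyticOnNhd (fun z hz => ?_) hopen
    have h1 : DifferentiableAt ℂ f (conj z) := (hf _ (perY_conj_mem hz)).differentiableAt
    have h2 := h1.conj_conj
    rw [conj_conj] at h2
    exact DifferentiableAt.differentiableWithinAt h2
  have hg : ∀ z ∈ St (-h) h,
      conj (Y.y1 (conj z)) * Y.y1 z - conj (Y.y2 (conj z)) * Y.y2 z = 0 := by
    refine perY_id hh (g := fun z => conj (Y.y1 (conj z)) * Y.y1 z -
      conj (Y.y2 (conj z)) * Y.y2 z) ?_ ?_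
    · exact ((hcj a1).mul a1).sub ((hcj a2).mul a2)
    · intro t
      obtain ⟨h1, -, h2, h3⟩ := real_axis hN hY t
      rw [h2, norm_div, div_eq_one_iff_eq (norm_ne_zero_iff.2 h1)] at h3
      show conj (Y.y1 (conj (t : ℂ))) * Y.y1 t - conj (Y.y2 (conj (t : ℂ))) * Y.y2 t = 0
      rw [conj_ofReal, mul_comm, mul_conj, mul_comm (conj (Y.y2 (t : ℂ))), mul_conj,
        normSq_eq_norm_sq, normSq_eq_norm_sq, h3, sub_self]
  have hlam : ∀ z ∈ St (-h) h, ∃ x : ℂ, x ≠ 0 ∧ conj (Y.y2 (conj z)) = x * Y.y1 z ∧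
      conj (Y.y1 (conj z)) = x * Y.y2 z := by
    intro z hz
    refine perY_lam ?_ ?_ (sub_eq_zero.1 (hg z hz))
    · by_contra hcon
      push Not at hcon
      have hw := hOn.wr z hz
      rw [hcon.1, hcon.2] at hw
      simp at hw
    · by_contra hcon
      push Not at hcon
      have hw := hOn.wr _ (perY_conj_mem hz)
      rw [map_eq_zero, map_eq_zero] at hcon
      rw [hcon.1, hcon.2] at hw
      simp at hw
  obtain ⟨x, hx, hx1, hx2⟩ := hlam u hu
  obtain ⟨y, hy, hy1, hy2⟩ := hlam v hv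
  have hkey : conj (Y.s (conj u) (conj v)) = -(x * y) * Y.s u v := by
    unfold Sys.s
    rw [map_sub, map_mul, map_mul, hx1, hx2, hy1, hy2]
    ring
  constructor
  · intro h1
    rw [h1, map_zero] at hkey
    rcases mul_eq_zero.1 hkey.symm with h2 | h2
    · exact absurd h2 (neg_ne_zero.2 (mul_ne_zero hx hy))
    · exact h2
  · intro h1
    rw [h1, mul_zero, map_eq_zero] at hkey
    exact hkey

end Pool.Agent.MP_ae5b4e_an_NB4H
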