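import Mathlib

/-!
# MP_ae5b4e_an, NB_4 part H: a matrix with a one-dimensional kernel has a non-zero adjugate
-/

noncomputable section

namespace Pool.Agent.MP_ae5b4e_an_NB4H

open Matrix

/-- If `adj A = 0` then `det (A + E i j) = det A + adj A j i = 0` for all `i j` (row `i` of
`A + E i j` is `A i + Pi.single j 1`; `Matrix.det_updateRow_add`, `Matrix.adjugate_apply`). Take
`v i₀ ≠ 0` and a vector `w ≠ 0` with `w A = 0` (`det A = 0`), `w i ≠ 0`; a kernel vector `u ≠ 0` of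
`A + E i i₀` satisfies `A u = - u i₀ e i`, so `0 = w A u = - u i₀ w i`, `u i₀ = 0`, `A u = 0`,
`u = μ v`, and `u i₀ = μ v i₀` gives `μ = 0`. -/
theorem adj_ne_zero {n : Type*} [Fintype n] [DecidableEq n] {A : Matrix n n ℂ} {v : n → ℂ}
    (hv : A *ᵥ v = 0) {i₀ : n} (hi : v i₀ ≠ 0)
    (hk : ∀ u : n → ℂ, A *ᵥ u = 0 → ∃ μ : ℂ, u = μ • v) : A.adjugate ≠ 0 := by
  intro hadj
  have hv0 : v ≠ 0 := fun h => hi (by rw [h]; rfl)
  have hdet : A.det = 0 := Matrix.exists_mulVec_eq_zero_iff.1 ⟨v, hv0, hv⟩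
  obtain ⟨w, hw0, hw⟩ := Matrix.exists_vecMul_eq_zero_iff.2 hdet
  obtain ⟨i, hwi⟩ := Function.ne_iff.1 hw0
  have hB : (A.updateRow i (A i + Pi.single i₀ 1)).det = 0 := by
    rw [Matrix.det_updateRow_add, Matrix.updateRow_eq_self, hdet, ← Matrix.adjugate_apply, hadj]
    simp
  obtain ⟨u, hu0, hu⟩ := Matrix.exists_mulVec_eq_zero_iff.2 hB
  have h1 : ∀ j, j ≠ i → (A *ᵥ u) j = 0 := by
    intro j hj
    have h2 := congrFun hu j
    rw [Matrix.mulVec, Matrix.updateRow_ne hj] at h2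
    exact h2
  have h2 : (A *ᵥ u) i = -u i₀ := by
    have h3 := congrFun hu i
    rw [Matrix.mulVec, Matrix.updateRow_self, add_dotProduct, single_dotProduct, one_mul] at h3
    exact eq_neg_of_add_eq_zero_left h3
  have h3 : w ⬝ᵥ (A *ᵥ u) = 0 := by
    rw [Matrix.dotProduct_mulVec, hw, zero_dotProduct]
  have h4 : w ⬝ᵥ (A *ᵥ u) = w i * (A *ᵥ u) i := by
    rw [dotProduct, Finset.sum_eq_single i]
    · intro j _ hj
      rw [h1 j hj, mul_zero]
    · intro h
      exact absurd (Finset.mem_univ i) h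
  rw [h4, h2] at h3
  have h5 : u i₀ = 0 := by
    rcases mul_eq_zero.1 h3 with h | h
    · exact absurd h hwi
    · exact neg_eq_zero.1 h
  have h6 : A *ᵥ u = 0 := by
    funext j
    rcases eq_or_ne j i with rfl | hj
    · rw [h2, h5]
      simp
    · exact h1 j hj
  obtain ⟨μ, hμ⟩ := hk u h6
  have h7 : μ * v i₀ = 0 := by
    rw [← h5, hμ]
    rfl
  have h8 : μ = 0 := (mul_eq_zero.1 h7).resolve_right hi
  exact hu0 (by rw [hμ, h8, zero_smul])

end Pool.Agent.MP_ae5b4e_an_NB4H
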