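import Pool.Agent.Lib.MP_ae5b4e_an_NB4H.Defs

/-!
# MP_ae5b4e_an, NB_4 part H: algebra and derivatives of the node function
-/

noncomputable section

namespace Pool.Agent.MP_ae5b4e_an_NB4H

open Complex Set Filter Topology Metric
open Pool.Agent.MP_ae5b4e_an_NBT (St)
open Pool.Agent.MP_ae5b4e_an_NB2 (Sys)
open Pool.Agent.MP_ae5b4e_an_NB4

variable {Y : Sys} {S : Set ℂ} {a b e u v : ℂ} {h : ℝ}

theorem nd_eq (q : ℕ) (z : ZMod q → ℂ) (n : ℤ) :
    nd Y q z n = nf Y (lab q z (n - 1)) (lab q z n) (lab q z (n + 1)) := rfl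

/-- derivative of the kernel in both variables: `∂_w s (w, l) = sd (w, l)`,
`∂_l s (w, l) = - c (w, l)` -/
theorem s_hasDerivAt (hY : Y.On S) {a b : ℂ → ℂ} {a' b' τ : ℂ} (ha : HasDerivAt a a' τ)
    (hb : HasDerivAt b b' τ) (haS : a τ ∈ S) (hbS : b τ ∈ S) :
    HasDerivAt (fun x => Y.s (a x) (b x)) (Y.sd (a τ) (b τ) * a' - Y.c (a τ) (b τ) * b') τ := by
  have h1 := ((hY.d1 _ hbS).comp τ hb).mul ((hY.d2 _ haS).comp τ ha)
  have h2 := ((hY.d2 _ hbS).comp τ hb).mul ((hY.d1 _ haS).comp τ ha)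
  have h3 := h1.sub h2
  refine h3.congr_deriv ?_
  simp only [Function.comp_apply, Sys.sd, Sys.c]
  ring

/-- `∂_w c (w, l) = cd (w, l)`, `∂_l c (w, l) = Q (l) s (w, l)` -/
theorem c_hasDerivAt (hY : Y.On S) {a b : ℂ → ℂ} {a' b' τ : ℂ} (ha : HasDerivAt a a' τ)
    (hb : HasDerivAt b b' τ) (haS : a τ ∈ S) (hbS : b τ ∈ S) :
    HasDerivAt (fun x => Y.c (a x) (b x))
      (Y.cd (a τ) (b τ) * a' + Y.Q (b τ) * Y.s (a τ) (b τ) * b') τ := by
  have h1 := ((hY.d2' _ hbS).comp τ hb).mul ((hY.d1 _ haS).comp τ ha)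
  have h2 := ((hY.d1' _ hbS).comp τ hb).mul ((hY.d2 _ haS).comp τ ha)
  have h3 := h1.sub h2
  refine h3.congr_deriv ?_
  simp only [Function.comp_apply, Sys.cd, Sys.s]
  ring

/-- the chain rule for the node function -/
theorem nf_hasDerivAt (hY : Y.On S) {a b e : ℂ → ℂ} {a' b' e' τ : ℂ} (ha : HasDerivAt a a' τ)
    (hb : HasDerivAt b b' τ) (he : HasDerivAt e e' τ) (haS : a τ ∈ S) (hbS : b τ ∈ S)
    (heS : e τ ∈ S) :
    HasDerivAt (fun x => nf Y (a x) (b x) (e x)) (nfa Y (a τ) (b τ) (e τ) * a' +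
      nfb Y (a τ) (b τ) (e τ) * b' + nfe Y (a τ) (b τ) (e τ) * e') τ := by
  have h1 := (c_hasDerivAt hY he hb heS hbS).mul (s_hasDerivAt hY ha hb haS hbS)
  have h2 := (c_hasDerivAt hY ha hb haS hbS).mul (s_hasDerivAt hY he hb heS hbS)
  refine (h1.add h2).congr_deriv ?_
  simp only [nfa, nfb, nfe]
  ring

theorem nfe_mul (hY : Y.On S) (hb : b ∈ S) (he : e ∈ S) (hn : nf Y a b e = 0) :
    nfe Y a b e * Y.s e b = -Y.s a b := by
  have hw := Sys.wr_s hY hb he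
  unfold nf at hn
  unfold nfe
  linear_combination (Y.sd e b) * hn - (Y.s a b) * hw

theorem nfa_mul (hY : Y.On S) (hb : b ∈ S) (ha : a ∈ S) (hn : nf Y a b e = 0) :
    nfa Y a b e * Y.s a b = -Y.s e b := by
  have hw := Sys.wr_s hY hb ha
  unfold nf at hn
  unfold nfa
  linear_combination (Y.sd a b) * hn - (Y.s e b) * hw

/-- `Sys.c w l * Sys.sd`..: the derivative of the kernel in the first variable is the function `c`
of the other pair: `sd (w, l) = c (l, w)` -/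
theorem sd_eq : Y.sd u v = Y.c v u := by
  unfold Sys.sd Sys.c
  ring

/-! ### integer translations -/

theorem y_add_int (hP : Per Y h) : ∃ ε : ℤ → ℂ, (∀ n, ε n ^ 2 = 1) ∧ ∀ n : ℤ, ∀ z ∈ St (-h) h,
    Y.y1 (z + n) = ε n * Y.y1 z ∧ Y.y2 (z + n) = ε n * Y.y2 z ∧ Y.y1' (z + n) = ε n * Y.y1' z ∧
      Y.y2' (z + n) = ε n * Y.y2' z := by
  obtain ⟨ε, hε, H⟩ := hP.ex
  have hε0 : ε ≠ 0 := by
    intro h0
    rw [h0] at hε
    norm_num at hε
  have hS : ∀ n : ℤ, ∀ z ∈ St (-h) h, z + n ∈ St (-h) h := by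
    intro n z hz
    refine ⟨?_, ?_⟩
    · simpa using hz.1
    · simpa using hz.2
  have hinv : ε⁻¹ = ε := by
    rw [inv_eq_iff_eq_inv, eq_comm, inv_eq_of_mul_eq_one_left]
    rw [← sq]
    exact hε
  have key : ∀ n : ℤ, ∀ z ∈ St (-h) h,
      Y.y1 (z + n) = ε ^ n * Y.y1 z ∧ Y.y2 (z + n) = ε ^ n * Y.y2 z ∧
      Y.y1' (z + n) = ε ^ n * Y.y1' z ∧ Y.y2' (z + n) = ε ^ n * Y.y2' z := by
    intro n
    induction n using Int.induction_on with
    | zero =>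
      intro z _
      simp
    | succ n ih =>
      intro z hz
      obtain ⟨h1, h2, h3, h4⟩ := ih z hz
      obtain ⟨k1, k2, k3, k4⟩ := H _ (hS n z hz)
      have e : z + ((n + 1 : ℤ) : ℂ) = z + (n : ℤ) + 1 := by push_cast; ring
      rw [e, k1, k2, k3, k4, h1, h2, h3, h4, zpow_add₀ hε0, zpow_one]
      refine ⟨?_, ?_, ?_, ?_⟩ <;> ring
    | pred n ih =>
      intro z hz
      obtain ⟨h1, h2, h3, h4⟩ := ih z hz
      obtain ⟨k1, k2, k3, k4⟩ := H _ (hS (-n - 1) z hz)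
      have e : z + ((-n - 1 : ℤ) : ℂ) + 1 = z + ((-n : ℤ) : ℂ) := by push_cast; ring
      rw [e] at k1 k2 k3 k4
      rw [h1] at k1
      rw [h2] at k2
      rw [h3] at k3
      rw [h4] at k4
      have e2 : ε ^ (-(n:ℤ) - 1) = ε ^ (-(n:ℤ)) * ε := by
        rw [zpow_sub_one₀ hε0, hinv]
      have key : ∀ x y : ℂ, ε ^ (-(n:ℤ)) * x = ε * y → y = ε ^ (-(n:ℤ) - 1) * x := by
        intro x y hxy
        rw [e2]
        linear_combination (-ε) * hxy - y * hε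
      exact ⟨key _ _ k1, key _ _ k2, key _ _ k3, key _ _ k4⟩
  refine ⟨fun n => ε ^ n, fun n => ?_, key⟩
  show (ε ^ n) ^ 2 = 1
  rw [← zpow_natCast, ← zpow_mul, mul_comm, zpow_mul, zpow_natCast, hε, one_zpow]

theorem s_add_int (hP : Per Y h) (hu : u ∈ St (-h) h) (hv : v ∈ St (-h) h) (n : ℤ) :
    Y.s (u + n) (v + n) = Y.s u v := by
  obtain ⟨ε, hε, H⟩ := y_add_int hP
  obtain ⟨a1, a2, -, -⟩ := H n u hu
  obtain ⟨b1, b2, -, -⟩ := H n v hv
  unfold Sys.s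
  rw [a1, a2, b1, b2]
  linear_combination (Y.y1 v * Y.y2 u - Y.y2 v * Y.y1 u) * hε n

theorem c_add_int (hP : Per Y h) (hu : u ∈ St (-h) h) (hv : v ∈ St (-h) h) (n : ℤ) :
    Y.c (u + n) (v + n) = Y.c u v := by
  obtain ⟨ε, hε, H⟩ := y_add_int hP
  obtain ⟨a1, a2, -, -⟩ := H n u hu
  obtain ⟨-, -, b3, b4⟩ := H n v hv
  unfold Sys.c
  rw [a1, a2, b3, b4]
  linear_combination (Y.y2' v * Y.y1 u - Y.y1' v * Y.y2 u) * hε n

theorem nf_add_int (hP : Per Y h) (ha : a ∈ St (-h) h) (hb : b ∈ St (-h) h) (he : e ∈ St (-h) h)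
    (n : ℤ) : nf Y (a + n) (b + n) (e + n) = nf Y a b e := by
  unfold nf
  rw [s_add_int hP ha hb, s_add_int hP he hb, c_add_int hP ha hb, c_add_int hP he hb]

end Pool.Agent.MP_ae5b4e_an_NB4H
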