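import Pool.Agent.Lib.MP_ae5b4e_an_NB4H.Alg

/-!
# MP_ae5b4e_an, NB_4 part H: the closed chain with the step `1 / q`
-/

noncomputable section

namespace Pool.Agent.MP_ae5b4e_an_NB4H

open Complex Set Filter Topology Metric
open Pool.Agent.MP_ae5b4e_an_NBT (St)
open Pool.Agent.MP_ae5b4e_an_NB2 (Sys)
open Pool.Agent.MP_ae5b4e_an_NB4

variable {Y : Sys} {h δ : ℝ} {L : ℂ × ℂ → ℂ} {t : ℂ} {q : ℕ}

theorem L_add_int (hL : LabH Y h δ L) {p : ℂ × ℂ} (hp : p ∈ Bx δ) (n : ℤ) :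
    L (p.1 + n, p.2) = L p + n := by
  have hmem : ∀ m : ℤ, ((p.1 + m, p.2) : ℂ × ℂ) ∈ Bx δ := fun m => ⟨by simpa using hp.1, hp.2⟩
  induction n using Int.induction_on with
  | zero => simp
  | succ n ih =>
    have h1 := hL.lper _ (hmem n)
    have e : p.1 + (((n : ℤ) + 1 : ℤ) : ℂ) = p.1 + ((n : ℤ) : ℂ) + 1 := by push_cast; ring
    rw [e, h1, ih]
    push_cast
    ring
  | pred n ih =>
    have h1 := hL.lper _ (hmem (-n - 1))
    have e : p.1 + ((-(n : ℤ) - 1 : ℤ) : ℂ) + 1 = p.1 + ((-(n : ℤ) : ℤ) : ℂ) := by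
      push_cast; ring
    simp only [e] at h1
    rw [ih] at h1
    have h2 : L (p.1 + ((-(n : ℤ) - 1 : ℤ) : ℂ), p.2) = L p + ((-(n : ℤ) : ℤ) : ℂ) - 1 := by
      rw [h1]; ring
    rw [h2]
    push_cast
    ring

private theorem q_pos (hL : LabH Y h δ L) (hq : 2 / δ < q) : (0 : ℝ) < q :=
  (div_pos two_pos hL.pos).trans hq

private theorem inv_q_lt (hL : LabH Y h δ L) (hq : 2 / δ < q) : ‖(1 : ℂ) / q‖ < δ / 2 := by
  have h0 := q_pos hL hq
  rw [norm_div, norm_one, Complex.norm_natCast, div_lt_iff₀ h0]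
  have h1 := (div_lt_iff₀ hL.pos).1 hq
  linarith

private theorem im_add (t : ℂ) (x : ℝ) (q : ℕ) : (t + (x : ℂ) / q).im = t.im := by
  have : (x : ℂ) / q = ((x / q : ℝ) : ℂ) := by push_cast; ring
  rw [this, Complex.add_im, Complex.ofReal_im, add_zero]

private theorem im_add_int (t : ℂ) (n : ℤ) (q : ℕ) : (t + (n : ℂ) / q).im = t.im := by
  have := im_add t (n : ℝ) q
  push_cast at this
  exact this

private theorem im_add_nat (t : ℂ) (n : ℕ) (q : ℕ) : (t + (n : ℂ) / q).im = t.im := by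
  have := im_add t (n : ℝ) q
  push_cast at this
  exact this

private theorem box_int (hL : LabH Y h δ L) (hq : 2 / δ < q) (ht : |t.im| < δ / 2) (n : ℤ) :
    ((t + (n : ℂ) / q, 1 / q) : ℂ × ℂ) ∈ Bx δ := by
  have h0 := hL.pos
  refine ⟨?_, ?_⟩
  · show |(t + (n : ℂ) / q).im| < δ
    rw [im_add_int]
    linarith
  · show ‖(1 : ℂ) / q‖ < δ
    linarith [inv_q_lt hL hq]

private theorem box_nat (hL : LabH Y h δ L) (hq : 2 / δ < q) (ht : |t.im| < δ / 2) (n : ℕ) :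
    ((t + (n : ℂ) / q, 1 / q) : ℂ × ℂ) ∈ Bx δ := by
  have := box_int hL hq ht (n : ℤ)
  push_cast at this
  exact this

/-- `n = (n mod q) + q (n / q)` and `L_add_int`. -/
theorem lab_zz (hL : LabH Y h δ L) [NeZero q] (hq : 2 / δ < q) (ht : |t.im| < δ / 2) (n : ℤ) :
    lab q (zz L q t) n = L (t + (n : ℂ) / q, 1 / q) := by
  have h0 : ((q : ℕ) : ℂ) ≠ 0 := Nat.cast_ne_zero.2 (NeZero.ne q)
  have h1 : (((n : ZMod q).val : ℕ) : ℤ) = n % q := ZMod.val_intCast n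
  have h2 := L_add_int hL (box_nat hL hq ht (n : ZMod q).val) (n / (q : ℤ))
  unfold lab zz
  rw [← h2]
  congr 2
  have h3 : (n : ℂ) = (((n : ZMod q).val : ℕ) : ℂ) + q * ((n / (q : ℤ) : ℤ) : ℂ) := by
    have h4 : n = (((n : ZMod q).val : ℕ) : ℤ) + q * (n / (q : ℤ)) := by
      rw [h1]
      exact (Int.emod_add_mul_ediv n q).symm
    exact_mod_cast congrArg (fun m : ℤ => (m : ℂ)) h4
  show t + (((n : ZMod q).val : ℕ) : ℂ) / q + ((n / (q : ℤ) : ℤ) : ℂ) = t + (n : ℂ) / q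
  conv_rhs => rw [h3, add_div, mul_div_cancel_left₀ _ h0]
  rw [add_assoc]

/-- the points of the chain are in the box -/
theorem chain_mem (hL : LabH Y h δ L) [NeZero q] (hq : 2 / δ < q) (ht : |t.im| < δ / 2) (n : ℤ) :
    ((t + (n : ℂ) / q, 1 / q) : ℂ × ℂ) ∈ Bx δ ∧ lab q (zz L q t) n ∈ St (-h) h := by
  have h1 := box_int hL hq ht n
  refine ⟨h1, ?_⟩
  rw [lab_zz hL hq ht n]
  exact hL.maps _ h1

theorem zz_mem_Sq (hL : LabH Y h δ L) [NeZero q] (hq : 2 / δ < q) (ht : |t.im| < δ / 2) :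
    zz L q t ∈ Sq h q := fun j => hL.maps _ (box_nat hL hq ht j.val)

/-- field `node` at the point `(t + n / q, 1 / q)` -/
theorem nd_zz (hL : LabH Y h δ L) [NeZero q] (hq : 2 / δ < q) (ht : |t.im| < δ / 2) (n : ℤ) :
    nd Y q (zz L q t) n = 0 := by
  have h1 := box_int hL hq ht n
  rw [nd_eq, lab_zz hL hq ht, lab_zz hL hq ht, lab_zz hL hq ht]
  have h2 := hL.node _ h1 (by
    show |(t + (n : ℂ) / q).im| + ‖(1 : ℂ) / q‖ < δ
    rw [im_add_int]
    linarith [inv_q_lt hL hq])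
  have e1 : t + ((n - 1 : ℤ) : ℂ) / q = t + (n : ℂ) / q - 1 / q := by push_cast; ring
  have e2 : t + ((n + 1 : ℤ) : ℂ) / q = t + (n : ℂ) / q + 1 / q := by push_cast; ring
  rw [e1, e2]
  exact h2

/-- field `sne` -/
theorem s_zz_ne (hL : LabH Y h δ L) [NeZero q] (hq : 2 / δ < q) (ht : |t.im| < δ / 2) (n : ℤ) :
    Y.s (lab q (zz L q t) (n + 1)) (lab q (zz L q t) n) ≠ 0 := by
  have h1 := box_int hL hq ht n
  have h0 : ((q : ℕ) : ℂ) ≠ 0 := Nat.cast_ne_zero.2 (NeZero.ne q)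
  rw [lab_zz hL hq ht, lab_zz hL hq ht]
  have h2 := hL.sne _ h1 (by
    show |(t + (n : ℂ) / q).im| + ‖(1 : ℂ) / q‖ < δ
    rw [im_add_int]
    linarith [inv_q_lt hL hq]) (one_div_ne_zero h0)
  have e2 : t + ((n + 1 : ℤ) : ℂ) / q = t + (n : ℂ) / q + 1 / q := by push_cast; ring
  rw [e2]
  exact h2

/-- the labels move with the velocity `∂_t L`, which is not zero -/
theorem lab_deriv (hL : LabH Y h δ L) [NeZero q] (hq : 2 / δ < q) (ht : |t.im| < δ / 2) (n : ℤ) :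
    HasDerivAt (fun x => lab q (zz L q x) n)
      (deriv (fun s => L (s, 1 / q)) (t + (n : ℂ) / q)) t ∧
    deriv (fun s => L (s, 1 / q)) (t + (n : ℂ) / q) ≠ 0 := by
  have h1 := box_int hL hq ht n
  have h2 : DifferentiableAt ℂ (fun s => L (s, 1 / q)) (t + (n : ℂ) / q) := by
    have h3 := (hL.an _ h1).differentiableAt
    exact DifferentiableAt.comp (g := L) (f := fun s : ℂ => ((s, 1 / q) : ℂ × ℂ)) _ h3
      (differentiableAt_id.prodMk (differentiableAt_const _))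
  constructor
  · have h3 : HasDerivAt (fun x : ℂ => L (x + (n : ℂ) / q, 1 / q))
        (deriv (fun s => L (s, 1 / q)) (t + (n : ℂ) / q)) t := by
      have h4 := h2.hasDerivAt.comp_add_const t ((n : ℂ) / q)
      exact h4
    refine h3.congr_of_eventuallyEq ?_
    have h5 : ∀ᶠ x : ℂ in 𝓝 t, |x.im| < δ / 2 :=
      (isOpen_lt (by fun_prop) continuous_const).mem_nhds ht
    filter_upwards [h5] with x hx
    exact lab_zz hL hq hx n
  · intro h3
    have h4 := hL.dt _ h1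
    simp only at h4
    rw [h3] at h4
    norm_num at h4

/-- the map `t ↦ zz L q t` is continuous on the strip -/
theorem zz_cont (hL : LabH Y h δ L) [NeZero q] (hq : 2 / δ < q) :
    ContinuousOn (zz L q) {t : ℂ | |t.im| < δ / 2} := by
  refine continuousOn_pi.2 fun j => ?_
  intro t ht
  have h3 := (hL.an _ (box_nat hL hq ht j.val)).continuousAt
  have h4 : ContinuousAt (fun x : ℂ => ((x + (j.val : ℂ) / q, 1 / q) : ℂ × ℂ)) t := by fun_prop
  exact (ContinuousAt.comp (g := L) (f := fun x : ℂ => ((x + (j.val : ℂ) / q, 1 / q) : ℂ × ℂ))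
    h3 h4).continuousWithinAt

end Pool.Agent.MP_ae5b4e_an_NB4H
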