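import Pool.Agent.Lib.MP_ae5b4e_an_NB4H.Alg

/-!
# MP_ae5b4e_an, NB_4 part H: the label near a point of the line `ρ = 0`
-/

noncomputable section

namespace Pool.Agent.MP_ae5b4e_an_NB4H

open Complex Set Filter Topology Metric
open Pool.Agent.MP_ae5b4e_an_NBT (St)
open Pool.Agent.MP_ae5b4e_an_NB2 (Sys)
open Pool.Agent.MP_ae5b4e_an_NB4

variable {Y : Sys} {h : ℝ} {L : ℂ × ℂ → ℂ} {t : ℂ}

private theorem eq_of_deriv {f f' : ℂ → ℂ} {S : Set ℂ} (hS : Convex ℝ S)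
    (hf : ∀ x ∈ S, HasDerivAt f (f' x) x) (hb : ∀ x ∈ S, ‖f' x - 1‖ ≤ 1 / 2) {a b : ℂ}
    (ha : a ∈ S) (hb' : b ∈ S) (hab : f a = f b) : a = b := by
  have h1 : ‖(f a - a) - (f b - b)‖ ≤ 1 / 2 * ‖a - b‖ :=
    hS.norm_image_sub_le_of_norm_hasDerivWithin_le (f := fun x => f x - x)
      (f' := fun x => f' x - 1)
      (fun x hx => ((hf x hx).sub (hasDerivAt_id' x)).hasDerivWithinAt) hb hb' ha
  have h2 : (f a - a) - (f b - b) = -(a - b) := by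
    rw [hab]
    ring
  rw [h2, norm_neg] at h1
  have h3 : ‖a - b‖ = 0 := le_antisymm (by linarith [norm_nonneg (a - b)]) (norm_nonneg _)
  exact sub_eq_zero.1 (norm_eq_zero.1 h3)

private theorem hasDerivAt_line {p : ℂ × ℂ} (hp : AnalyticAt ℂ L p) :
    HasDerivAt (fun s => L (s, p.2)) (fderiv ℂ L p (1, 0)) p.1 := by
  have h1 : HasDerivAt (fun s : ℂ => (s, p.2)) ((1 : ℂ), (0 : ℂ)) p.1 :=
    (hasDerivAt_id' p.1).prodMk (hasDerivAt_const p.1 p.2)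
  exact hp.differentiableAt.hasFDerivAt.comp_hasDerivAt p.1 h1

/-- The function `p ↦ deriv (fun s => L (s, p.2)) p.1 = fderiv ℂ L p (1, 0)` is continuous near
`(t, 0)` and has the value `1` there, because `L (s, 0) = s` for `s` near `t`. -/
theorem deriv_near (hL : AnalyticAt ℂ L (t, 0)) (hL0 : ∀ᶠ s in 𝓝 t, L (s, 0) = s) :
    ∀ᶠ p : ℂ × ℂ in 𝓝 (t, 0), ‖deriv (fun s => L (s, p.2)) p.1 - 1‖ ≤ 1 / 2 := by
  have h1 : ContinuousAt (fun p => fderiv ℂ L p (1, 0)) (t, 0) :=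
    hL.fderiv.continuousAt.clm_apply continuousAt_const
  have h2 : fderiv ℂ L (t, 0) (1, 0) = 1 := by
    have h3 := (hasDerivAt_line hL).deriv
    rw [← h3]
    have h4 : (fun s => L (s, (0 : ℂ))) =ᶠ[𝓝 t] fun s => s := hL0
    have h5 := h4.deriv_eq
    simpa using h5
  have h3 : ∀ᶠ p in 𝓝 (t, (0 : ℂ)), ‖fderiv ℂ L p (1, 0) - 1‖ < 1 / 2 := by
    have h4 : ContinuousAt (fun p => ‖fderiv ℂ L p (1, 0) - 1‖) (t, 0) :=
      (h1.sub continuousAt_const).norm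
    refine h4.eventually_lt continuousAt_const ?_
    rw [h2, sub_self, norm_zero]
    norm_num
  filter_upwards [h3, hL.eventually_analyticAt] with p h4 h5
  rw [(hasDerivAt_line h5).deriv]
  exact h4.le

/-- The kernel is a local coordinate: `(u, v) ↦ s (u, v)` is strictly differentiable at `(t, t)`
with the derivative `du - dv` (`sd (t, t) = c (t, t) = 1`), and `s (v, v) = 0`. So
`|s (u, v) - (u - v)| ≤ |u - v| / 2` near `(t, t)`. -/
theorem s_near (hY : Y.On (St (-h) h)) (ht : t ∈ St (-h) h) :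
    ∀ᶠ p : ℂ × ℂ in 𝓝 (t, t), Y.s p.1 p.2 = 0 → p.1 = p.2 := by
  have hS : IsOpen (St (-h) h) := Pool.Agent.MP_ae5b4e_an_NBT.isOpen_St _ _
  have h1 : ContinuousAt (fun p : ℂ × ℂ => Y.sd p.1 p.2) (t, t) := by
    have h2 : (fun p : ℂ × ℂ => Y.sd p.1 p.2) = fun p => Y.c p.2 p.1 := funext fun p => sd_eq
    rw [h2]
    exact (Sys.an_c hY hS (a := fun p : ℂ × ℂ => p.2) (b := fun p : ℂ × ℂ => p.1)
      analyticAt_snd analyticAt_fst ht ht).continuousAt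
  have h2 : ∀ᶠ p in 𝓝 (t, t), ‖Y.sd p.1 p.2 - 1‖ < 1 / 2 := by
    have h4 : ContinuousAt (fun p : ℂ × ℂ => ‖Y.sd p.1 p.2 - 1‖) (t, t) :=
      (h1.sub continuousAt_const).norm
    refine h4.eventually_lt continuousAt_const ?_
    rw [Sys.sd_self hY ht, sub_self, norm_zero]
    norm_num
  have h3 : ∀ᶠ p : ℂ × ℂ in 𝓝 (t, t), p.1 ∈ St (-h) h ∧ p.2 ∈ St (-h) h :=
    ((continuousAt_fst (p := ((t, t) : ℂ × ℂ))).eventually (hS.mem_nhds ht)).and
      ((continuousAt_snd (p := ((t, t) : ℂ × ℂ))).eventually (hS.mem_nhds ht))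
  obtain ⟨r, hr, h4⟩ := Metric.eventually_nhds_iff_ball.1 (h2.and h3)
  rw [Metric.eventually_nhds_iff_ball]
  refine ⟨r, hr, fun p hp h5 => ?_⟩
  rw [← ball_prod_same] at hp
  have h6 : ∀ x ∈ ball t r, ‖Y.sd x p.2 - 1‖ < 1 / 2 ∧ x ∈ St (-h) h ∧ p.2 ∈ St (-h) h :=
    fun x hx => h4 (x, p.2) (by rw [← ball_prod_same]; exact ⟨hx, hp.2⟩)
  refine eq_of_deriv (convex_ball t r) (f := fun w => Y.s w p.2) (f' := fun w => Y.sd w p.2)
    (fun x hx => Sys.hasDerivAt_s hY (h6 x hx).2.1) (fun x hx => (h6 x hx).1.le) hp.1 hp.2 ?_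
  rw [h5, Sys.s_self]

/-- `s (L (t' + ρ, ρ), L (t', ρ)) = 0` gives `L (t' + ρ, ρ) = L (t', ρ)` by `s_near`, and
`L (·, ρ)` is injective near `t`: `|L (a, ρ) - L (b, ρ) - (a - b)| ≤ |a - b| / 2` on a ball
(`deriv_near` and the mean value inequality on the convex ball). So `ρ = 0`. -/
theorem sne_near (hY : Y.On (St (-h) h)) (ht : t ∈ St (-h) h) (hL : AnalyticAt ℂ L (t, 0))
    (hL0 : ∀ᶠ s in 𝓝 t, L (s, 0) = s) :
    ∀ᶠ p : ℂ × ℂ in 𝓝 (t, 0), p.2 ≠ 0 → Y.s (L (p.1 + p.2, p.2)) (L p) ≠ 0 := by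
  have hLt : L (t, 0) = t := hL0.self_of_nhds
  obtain ⟨r, hr, h1⟩ := Metric.eventually_nhds_iff_ball.1
    ((deriv_near hL hL0).and hL.eventually_analyticAt)
  have hc1 : Tendsto (fun p : ℂ × ℂ => p.1 + p.2) (𝓝 (t, 0)) (𝓝 t) := by
    have h2 : ContinuousAt (fun p : ℂ × ℂ => p.1 + p.2) (t, 0) := by fun_prop
    have h3 := h2.tendsto
    simpa using h3
  have hc2 : Tendsto (fun p : ℂ × ℂ => (p.1 + p.2, p.2)) (𝓝 (t, 0)) (𝓝 (t, 0)) := by
    have h2 : ContinuousAt (fun p : ℂ × ℂ => (p.1 + p.2, p.2)) (t, 0) := by fun_prop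
    have h3 := h2.tendsto
    simpa using h3
  have hc3 : Tendsto (fun p : ℂ × ℂ => (L (p.1 + p.2, p.2), L p)) (𝓝 (t, 0)) (𝓝 (t, t)) := by
    have h2 := hL.continuousAt.tendsto
    rw [hLt] at h2
    exact (h2.comp hc2).prodMk_nhds h2
  filter_upwards [hc3.eventually (s_near hY ht), hc1.eventually (ball_mem_nhds t hr),
    ball_mem_nhds ((t, 0) : ℂ × ℂ) hr] with p h2 h3 h4 h5 h6
  have h7 := h2 h6
  rw [← ball_prod_same] at h4
  have h8 : ∀ x ∈ ball t r, ‖deriv (fun s => L (s, p.2)) x - 1‖ ≤ 1 / 2 ∧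
      AnalyticAt ℂ L (x, p.2) :=
    fun x hx => h1 (x, p.2) (by rw [← ball_prod_same]; exact ⟨hx, h4.2⟩)
  have h9 := eq_of_deriv (convex_ball t r) (f := fun s => L (s, p.2))
    (f' := fun x => deriv (fun s => L (s, p.2)) x)
    (fun x hx => (hasDerivAt_line (h8 x hx).2).differentiableAt.hasDerivAt)
    (fun x hx => (h8 x hx).1) h3 h4.1 h7
  exact h5 (by simpa using h9)

end Pool.Agent.MP_ae5b4e_an_NB4H
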