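import Pool.Agent.Lib.MP_ae5b4e_an_NB4H.LabX
import Pool.Agent.Lib.MP_ae5b4e_an_NB4H.Near

/-!
# MP_ae5b4e_an, NB_4 part H: the label in a box around the real axis (compactness)
-/

noncomputable section

namespace Pool.Agent.MP_ae5b4e_an_NB4H

open Complex Set Filter Topology Metric
open Pool.Agent.MP_ae5b4e_an_NBT
open Pool.Agent.MP_ae5b4e_an_NB2 (Sys)
open Pool.Agent.MP_ae5b4e_an_NB4
open scoped ComplexConjugate

variable {k : ℂ → ℂ} {F G : ℂ × ℂ → ℂ} {c h : ℝ} {Y : Sys}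

/-- A property of points near `[0, 1] × {0}` holds on a box around the real axis if it is
invariant under `(t, ρ) ↦ (t + n, ρ)`: compactness of `[0, 1]` (thickening of a compact set
contained in an open set). -/
theorem box_of_near {P : ℂ × ℂ → Prop} (hP : ∀ x ∈ Icc (0:ℝ) 1, ∀ᶠ p : ℂ × ℂ in 𝓝 ((x : ℂ), (0:ℂ)),
    P p) (hper : ∀ (p : ℂ × ℂ) (n : ℤ), P (p.1 - n, p.2) → P p) : ∃ δ > 0, ∀ p ∈ Bx δ, P p := by
  have hK : IsCompact ((fun x : ℝ => (((x : ℂ), (0:ℂ)) : ℂ × ℂ)) '' Icc (0:ℝ) 1) :=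
    isCompact_Icc.image (by fun_prop)
  have hO : IsOpen {p : ℂ × ℂ | ∀ᶠ p' in 𝓝 p, P p'} := isOpen_setOfPred_eventually_nhds
  have hsub : ((fun x : ℝ => (((x : ℂ), (0:ℂ)) : ℂ × ℂ)) '' Icc (0:ℝ) 1) ⊆
      {p : ℂ × ℂ | ∀ᶠ p' in 𝓝 p, P p'} := by
    rintro _ ⟨x, hx, rfl⟩
    exact hP x hx
  obtain ⟨δ, hδ, hth⟩ := hK.exists_thickening_subset_open hO hsub
  refine ⟨δ, hδ, fun p hp => ?_⟩
  refine hper p ⌊p.1.re⌋ ?_
  have h1 : ((p.1 - (⌊p.1.re⌋ : ℂ), p.2) : ℂ × ℂ) ∈ thickening δ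
      ((fun x : ℝ => (((x : ℂ), (0:ℂ)) : ℂ × ℂ)) '' Icc (0:ℝ) 1) := by
    rw [mem_thickening_iff]
    refine ⟨((Int.fract p.1.re : ℝ), 0), ⟨Int.fract p.1.re, ⟨Int.fract_nonneg _,
      (Int.fract_lt_one _).le⟩, rfl⟩, ?_⟩
    rw [Prod.dist_eq, max_lt_iff]
    constructor
    · have h2 : p.1 - (⌊p.1.re⌋ : ℂ) - ((Int.fract p.1.re : ℝ) : ℂ) = (p.1.im : ℂ) * I := by
        apply Complex.ext
        · simp
        · simp
      show dist (p.1 - (⌊p.1.re⌋ : ℂ)) ((Int.fract p.1.re : ℝ) : ℂ) < δ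
      rw [dist_eq_norm, h2, norm_mul, Complex.norm_I, mul_one, Complex.norm_real,
        Real.norm_eq_abs]
      exact hp.1
    · show dist p.2 0 < δ
      rw [dist_zero_right]
      exact hp.2
  exact (hth h1).self_of_nhds

private lemma DK_int {R : ℝ} {p : ℂ × ℂ} (hp : p ∈ DK F c R) (n : ℤ) :
    ((p.1 + n, p.2) : ℂ × ℂ) ∈ DK F c R := by
  obtain ⟨h1, ⟨y, h2, h3⟩, ⟨y', h4, h5⟩⟩ := hp
  have h6 : (p.1 + (n : ℂ)).im = p.1.im := by simp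
  exact ⟨h1, ⟨y, by rw [h6]; exact h2, h3⟩, ⟨y', by rw [h6]; exact h4, h5⟩⟩

private lemma L_int {R : ℝ} {L : ℂ × ℂ → ℂ} (hL : ∀ p ∈ DK F c R, L (p.1 + 1, p.2) = L p + 1)
    {p : ℂ × ℂ} (hp : p ∈ DK F c R) (n : ℤ) : L (p.1 + n, p.2) = L p + n := by
  induction n using Int.induction_on with
  | zero => simp
  | succ n ih =>
    have h1 := hL _ (DK_int hp n)
    have e : ((p.1 + ((n : ℤ) : ℂ) + 1, p.2) : ℂ × ℂ) = (p.1 + (((n : ℤ) + 1 : ℤ) : ℂ), p.2) := by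
      push_cast
      rw [add_assoc]
    rw [← e, h1, ih]
    push_cast
    ring
  | pred n ih =>
    have h1 := hL _ (DK_int hp (-(n : ℤ) - 1))
    have e : ((p.1 + ((-(n : ℤ) - 1 : ℤ) : ℂ) + 1, p.2) : ℂ × ℂ) =
        (p.1 + ((-(n : ℤ) : ℤ) : ℂ), p.2) := by
      push_cast
      ring_nf
    rw [e, ih] at h1
    have h2 : L (p.1 + ((-(n : ℤ) - 1 : ℤ) : ℂ), p.2) = L p + ((-(n : ℤ) : ℤ) : ℂ) - 1 := by
      rw [h1]
      ring
    rw [h2]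
    push_cast
    ring

/-- Apply `box_of_near` to the conjunction of: `p ∈ DK F c R`, `deriv_near`, `sne_near` and the
node relation; membership in `DK` depends only on `p.1.im` and `p.2`; for `p` in `DK` all integer
translations `L (p.1 + n, p.2) = L p + n`; the node function and the kernel are invariant
(`nf_add_int`, `s_add_int`). The points `(p.1 ± p.2, p.2)` are in the box by the hypothesis
`|p.1.im| + ‖p.2‖ < δ`. Field `real`: `L (conj p) = conj (L p)`. -/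
theorem exists_labH (hN : NBd k F c h G) (hY : SysOf Y G h) :
    ∃ (δ : ℝ) (L : ℂ × ℂ → ℂ), LabH Y h δ L := by
  obtain ⟨R, L, hR0, hR, hLan, hLp, hLz, hLD, -, hLn⟩ := exists_labX hN hY
  have hh : 0 < h := hN.pos.trans hN.hc
  have hPer : Per Y h := per_of hN.toConE hY
  have hopen : IsOpen (DK F c R) := isOpen_Dom _ _ _ _
  have hL1 : ∀ p ∈ DK F c R, L (p.1 + 1, p.2) = L p + 1 := fun p hp => (hLp p hp).2.1
  have hLS : ∀ p ∈ DK F c R, L p ∈ St (-h) h := fun p hp => abs_lt.1 (hLp p hp).1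
  obtain ⟨δ, hδ, hbox⟩ := box_of_near
    (P := fun p : ℂ × ℂ => p ∈ DK F c R ∧ (p.1 - p.2, p.2) ∈ DK F c R ∧
      (p.1 + p.2, p.2) ∈ DK F c R ∧ nf Y (L (p.1 - p.2, p.2)) (L p) (L (p.1 + p.2, p.2)) = 0 ∧
      ‖deriv (fun s => L (s, p.2)) p.1 - 1‖ ≤ 1 / 2 ∧
      (p.2 ≠ 0 → Y.s (L (p.1 + p.2, p.2)) (L p) ≠ 0)) (by
    intro x _
    have hx : (x : ℂ) ∈ St (-h) h := ⟨by simpa using hh, by simpa using hh⟩
    have hm : (((x : ℂ), (0:ℂ)) : ℂ × ℂ) ∈ DK F c R := hLD _ (abs_lt.2 hx)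
    have hev : ∀ᶠ p : ℂ × ℂ in 𝓝 ((x : ℂ), (0:ℂ)), p ∈ DK F c R := hopen.mem_nhds hm
    have ht1 : Tendsto (fun p : ℂ × ℂ => ((p.1 - p.2, p.2) : ℂ × ℂ)) (𝓝 ((x : ℂ), (0:ℂ)))
        (𝓝 ((x : ℂ), (0:ℂ))) := by
      have h1 : Continuous fun p : ℂ × ℂ => ((p.1 - p.2, p.2) : ℂ × ℂ) := by fun_prop
      have h2 := h1.tendsto ((x : ℂ), (0:ℂ))
      simpa using h2
    have ht2 : Tendsto (fun p : ℂ × ℂ => ((p.1 + p.2, p.2) : ℂ × ℂ)) (𝓝 ((x : ℂ), (0:ℂ)))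
        (𝓝 ((x : ℂ), (0:ℂ))) := by
      have h1 : Continuous fun p : ℂ × ℂ => ((p.1 + p.2, p.2) : ℂ × ℂ) := by fun_prop
      have h2 := h1.tendsto ((x : ℂ), (0:ℂ))
      simpa using h2
    have hL0 : ∀ᶠ s in 𝓝 (x : ℂ), L (s, 0) = s := by
      filter_upwards [(isOpen_St (-h) h).mem_nhds hx] with s hs
      exact hLz s (abs_lt.2 hs)
    filter_upwards [hev, ht1.eventually hev, ht2.eventually hev, hLn _ hx,
      deriv_near (hLan _ hm) hL0, sne_near hY.1 hx (hLan _ hm) hL0] with p h1 h2 h3 h4 h5 h6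
    exact ⟨h1, h2, h3, h4, h5, h6⟩) (by
    intro p n hp
    have key : ∀ p : ℂ × ℂ, (p ∈ DK F c R ∧ (p.1 - p.2, p.2) ∈ DK F c R ∧
        (p.1 + p.2, p.2) ∈ DK F c R ∧ nf Y (L (p.1 - p.2, p.2)) (L p) (L (p.1 + p.2, p.2)) = 0 ∧
        ‖deriv (fun s => L (s, p.2)) p.1 - 1‖ ≤ 1 / 2 ∧
        (p.2 ≠ 0 → Y.s (L (p.1 + p.2, p.2)) (L p) ≠ 0)) →
        ((p.1 + n, p.2) ∈ DK F c R ∧ (p.1 + n - p.2, p.2) ∈ DK F c R ∧
        (p.1 + n + p.2, p.2) ∈ DK F c R ∧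
        nf Y (L (p.1 + n - p.2, p.2)) (L (p.1 + n, p.2)) (L (p.1 + n + p.2, p.2)) = 0 ∧
        ‖deriv (fun s => L (s, p.2)) (p.1 + n) - 1‖ ≤ 1 / 2 ∧
        (p.2 ≠ 0 → Y.s (L (p.1 + n + p.2, p.2)) (L (p.1 + n, p.2)) ≠ 0)) := by
      rintro p ⟨h1, h2, h3, h4, h5, h6⟩
      have e2 : p.1 + (n : ℂ) - p.2 = p.1 - p.2 + n := by ring
      have e3 : p.1 + (n : ℂ) + p.2 = p.1 + p.2 + n := by ring
      rw [e2, e3]
      have g1 := L_int hL1 h1 n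
      have g2 := L_int hL1 h2 n
      have g3 := L_int hL1 h3 n
      refine ⟨DK_int h1 n, DK_int h2 n, DK_int h3 n, ?_, ?_, ?_⟩
      · rw [g1, g2, g3, nf_add_int hPer (hLS _ h2) (hLS _ h1) (hLS _ h3)]
        exact h4
      · rw [← deriv_comp_add_const]
        have h7 : (fun s : ℂ => L (s + n, p.2)) =ᶠ[𝓝 p.1] fun s => L (s, p.2) + n := by
          have h8 : Tendsto (fun s : ℂ => ((s, p.2) : ℂ × ℂ)) (𝓝 p.1) (𝓝 p) := by
            have h9 : Continuous fun s : ℂ => ((s, p.2) : ℂ × ℂ) := by fun_prop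
            exact h9.tendsto p.1
          filter_upwards [h8.eventually (hopen.mem_nhds h1)] with s hs
          exact L_int hL1 hs n
        rw [h7.deriv_eq, deriv_add_const]
        exact h5
      · intro h0
        rw [g1, g3, s_add_int hPer (hLS _ h3) (hLS _ h1)]
        exact h6 h0
    have h1 := key _ hp
    simp only [sub_add_cancel] at h1
    exact h1)
  refine ⟨δ, L, ⟨hh, hY.1, hPer, hδ, fun p hp => hLan p (hbox p hp).1,
    fun p hp => hLS p (hbox p hp).1, fun p hp => hL1 p (hbox p hp).1, ?_,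
    fun p hp _ => (hbox p hp).2.2.2.1, fun p hp => (hbox p hp).2.2.2.2.1,
    fun p hp _ => (hbox p hp).2.2.2.2.2, inj_of hN.toConE hY⟩⟩
  intro t ρ hρ
  have hp : (((t : ℂ), (ρ : ℂ)) : ℂ × ℂ) ∈ Bx δ := by
    refine ⟨?_, ?_⟩
    · simpa using hδ
    · simpa using hρ
  have h1 := (hLp _ (hbox _ hp).1).2.2.2
  simp only [Complex.conj_ofReal] at h1
  exact Complex.conj_eq_iff_im.1 h1.symm

end Pool.Agent.MP_ae5b4e_an_NB4H
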