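import Pool.Agent.Lib.MP_ae5b4e_an_NB4.Defs
import Pool.Agent.Lib.MP_ae5b4e_an_NB2.Sys

/-!
# MP_ae5b4e_an, project NB_4, part H: the closed chain of real labels at `c = 1 / q` (definitions)
-/

noncomputable section

namespace Pool.Agent.MP_ae5b4e_an_NB4H

open Complex Set Filter Topology Metric
open Pool.Agent.MP_ae5b4e_an_NBT (St)
open Pool.Agent.MP_ae5b4e_an_NB2 (Sys)
open Pool.Agent.MP_ae5b4e_an_NB4
open scoped ComplexConjugate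

/-- the box around the real axis -/
def Bx (δ : ℝ) : Set (ℂ × ℂ) := {p | |p.1.im| < δ ∧ ‖p.2‖ < δ}

/-- the node function of the label `b` with the neighbours `a`, `e` -/
def nf (Y : Sys) (a b e : ℂ) : ℂ := Y.c e b * Y.s a b + Y.c a b * Y.s e b

/-- its derivative with respect to `a` -/
def nfa (Y : Sys) (a b e : ℂ) : ℂ := Y.c e b * Y.sd a b + Y.cd a b * Y.s e b

/-- its derivative with respect to `b` -/
def nfb (Y : Sys) (a b e : ℂ) : ℂ := 2 * (Y.Q b * (Y.s a b * Y.s e b) - Y.c a b * Y.c e b)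

/-- its derivative with respect to `e` -/
def nfe (Y : Sys) (a b e : ℂ) : ℂ := Y.cd e b * Y.s a b + Y.c a b * Y.sd e b

/-- The label in a box around the real axis. -/
structure LabH (Y : Sys) (h δ : ℝ) (L : ℂ × ℂ → ℂ) : Prop where
  h_pos : 0 < h
  on : Y.On (St (-h) h)
  per : Per Y h
  pos : 0 < δ
  an : ∀ p ∈ Bx δ, AnalyticAt ℂ L p
  maps : ∀ p ∈ Bx δ, L p ∈ St (-h) h
  lper : ∀ p ∈ Bx δ, L (p.1 + 1, p.2) = L p + 1
  real : ∀ t ρ : ℝ, |ρ| < δ → (L ((t : ℂ), (ρ : ℂ))).im = 0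
  node : ∀ p ∈ Bx δ, |p.1.im| + ‖p.2‖ < δ →
    nf Y (L (p.1 - p.2, p.2)) (L p) (L (p.1 + p.2, p.2)) = 0
  dt : ∀ p ∈ Bx δ, ‖deriv (fun s => L (s, p.2)) p.1 - 1‖ ≤ 1 / 2
  sne : ∀ p ∈ Bx δ, |p.1.im| + ‖p.2‖ < δ → p.2 ≠ 0 → Y.s (L (p.1 + p.2, p.2)) (L p) ≠ 0
  inj : ∀ u v : ℝ, Y.s (u : ℂ) (v : ℂ) = 0 → ∃ n : ℤ, u = v + n

/-- the closed chain with the step `1 / q` through the label of `t` -/
def zz (L : ℂ × ℂ → ℂ) (q : ℕ) (t : ℂ) : ZMod q → ℂ := fun j => L (t + (j.val : ℂ) / q, 1 / q)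

end Pool.Agent.MP_ae5b4e_an_NB4H
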