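import Pool.Agent.Lib.MP_ae5b4e_an_NB4H.Alg

/-!
# MP_ae5b4e_an, NB_4 part H: the Jacobian matrix of the node functions
-/

noncomputable section

namespace Pool.Agent.MP_ae5b4e_an_NB4H

open Complex Set Filter Topology Metric
open Pool.Agent.MP_ae5b4e_an_NBT (St isOpen_St)
open Pool.Agent.MP_ae5b4e_an_NB2 (Sys)
open Pool.Agent.MP_ae5b4e_an_NB4

variable {Y : Sys} {h : ℝ} {q : ℕ}

/-- `lab q z n` is in the strip if `z ∈ Sq h q` -/
theorem lab_mem {z : ZMod q → ℂ} (hz : z ∈ Sq h q) (n : ℤ) : lab q z n ∈ St (-h) h := by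
  have h1 := hz (n : ZMod q)
  have h2 : (lab q z n).im = (z (n : ZMod q)).im := by
    simp [lab]
  exact ⟨by rw [h2]; exact h1.1, by rw [h2]; exact h1.2⟩

private theorem lab_an [NeZero q] (n : ℤ) (z : ZMod q → ℂ) :
    AnalyticAt ℂ (fun z' : ZMod q → ℂ => lab q z' n) z := by
  have h1 : AnalyticAt ℂ (fun z' : ZMod q → ℂ => z' (n : ZMod q)) z :=
    (ContinuousLinearMap.proj (R := ℂ) (φ := fun _ : ZMod q => ℂ) (n : ZMod q)).analyticAt z
  exact h1.add analyticAt_const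

private theorem nd_an (hY : Y.On (St (-h) h)) [NeZero q] {z : ZMod q → ℂ} (hz : z ∈ Sq h q)
    (n : ℤ) : AnalyticAt ℂ (fun z' : ZMod q → ℂ => nd Y q z' n) z := by
  have ho := isOpen_St (-h) h
  exact ((Sys.an_c hY ho (lab_an (n + 1) z) (lab_an n z) (lab_mem hz _) (lab_mem hz _)).mul
    (Sys.an_s hY ho (lab_an (n - 1) z) (lab_an n z) (lab_mem hz _) (lab_mem hz _))).add
    ((Sys.an_c hY ho (lab_an (n - 1) z) (lab_an n z) (lab_mem hz _) (lab_mem hz _)).mul
    (Sys.an_s hY ho (lab_an (n + 1) z) (lab_an n z) (lab_mem hz _) (lab_mem hz _)))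

private theorem lab_line (z v : ZMod q → ℂ) (n : ℤ) :
    HasDerivAt (fun τ : ℂ => lab q (z + τ • v) n) (v (n : ZMod q)) 0 := by
  have h1 : HasDerivAt (fun τ : ℂ => lab q z n + τ * v (n : ZMod q)) (v (n : ZMod q)) 0 := by
    simpa using ((hasDerivAt_id (0:ℂ)).mul_const (v (n : ZMod q))).const_add (lab q z n)
  refine h1.congr_of_eventuallyEq (Eventually.of_forall fun τ => ?_)
  simp only [lab, Pi.add_apply, Pi.smul_apply, smul_eq_mul]
  ring

/-- The node functions are holomorphic near `z`; `(Jm *ᵥ v) i` is the derivative of the node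
function `i` in the direction `v`: `nf_hasDerivAt` along `τ ↦ z + τ v`. -/
theorem Jm_mulVec (hY : Y.On (St (-h) h)) [NeZero q] {z : ZMod q → ℂ} (hz : z ∈ Sq h q)
    (v : ZMod q → ℂ) (i : ZMod q) :
    (Jm Y q z).mulVec v i =
      nfa Y (lab q z ((i.val : ℤ) - 1)) (lab q z (i.val : ℤ)) (lab q z ((i.val : ℤ) + 1)) *
          v (((i.val : ℤ) - 1 : ℤ) : ZMod q) +
        nfb Y (lab q z ((i.val : ℤ) - 1)) (lab q z (i.val : ℤ)) (lab q z ((i.val : ℤ) + 1)) *
          v ((i.val : ℤ) : ZMod q) +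
        nfe Y (lab q z ((i.val : ℤ) - 1)) (lab q z (i.val : ℤ)) (lab q z ((i.val : ℤ) + 1)) *
          v (((i.val : ℤ) + 1 : ℤ) : ZMod q) := by
  have hd := (nd_an hY hz (i.val : ℤ)).differentiableAt.hasFDerivAt
  have hv : v = ∑ j, v j • (Pi.single j (1:ℂ) : ZMod q → ℂ) := by
    funext k
    simp [Finset.sum_apply, Pi.single_apply]
  have h1 : (Jm Y q z).mulVec v i =
      fderiv ℂ (fun z' : ZMod q → ℂ => nd Y q z' (i.val : ℤ)) z v := by
    conv_rhs => rw [hv]
    rw [map_sum]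
    simp only [map_smul, smul_eq_mul, Matrix.mulVec, dotProduct, Jm]
    exact Finset.sum_congr rfl fun j _ => mul_comm _ _
  have hl : HasDerivAt (fun τ : ℂ => z + τ • v) v 0 := by
    simpa using ((hasDerivAt_id (0:ℂ)).smul_const v).const_add z
  have h0 : (fun τ : ℂ => z + τ • v) 0 = z := by simp
  have h2 : HasDerivAt (fun τ : ℂ => nd Y q (z + τ • v) (i.val : ℤ))
      (fderiv ℂ (fun z' : ZMod q → ℂ => nd Y q z' (i.val : ℤ)) z v) 0 := by
    have h3 : HasFDerivAt (fun z' : ZMod q → ℂ => nd Y q z' (i.val : ℤ))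
        (fderiv ℂ (fun z' : ZMod q → ℂ => nd Y q z' (i.val : ℤ)) z)
        ((fun τ : ℂ => z + τ • v) 0) := by
      rw [h0]
      exact hd
    exact HasFDerivAt.comp_hasDerivAt (f := fun τ : ℂ => z + τ • v) (0:ℂ) h3 hl
  have hz0 : ∀ n : ℤ, lab q (z + (0:ℂ) • v) n = lab q z n := fun n => by simp
  have h4 := nf_hasDerivAt (τ := (0:ℂ)) hY (lab_line z v ((i.val : ℤ) - 1))
    (lab_line z v (i.val : ℤ)) (lab_line z v ((i.val : ℤ) + 1))
    (by rw [hz0]; exact lab_mem hz _) (by rw [hz0]; exact lab_mem hz _)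
    (by rw [hz0]; exact lab_mem hz _)
  rw [hz0, hz0, hz0] at h4
  rw [h1]
  exact h2.unique h4

/-- A recursion `a n x (n-1) + b n x n + e n x (n+1) = 0`, `1 ≤ n < q`, with `e n ≠ 0`, determines
`x` on `0, …, q` by `x 0`, `x 1`. -/
theorem rec_unique {q : ℕ} {a b e x y : ℕ → ℂ} (he : ∀ n, 1 ≤ n → n < q → e n ≠ 0)
    (hx : ∀ n, 1 ≤ n → n < q → a n * x (n - 1) + b n * x n + e n * x (n + 1) = 0)
    (hy : ∀ n, 1 ≤ n → n < q → a n * y (n - 1) + b n * y n + e n * y (n + 1) = 0)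
    (h0 : x 0 = y 0) (h1 : x 1 = y 1) : ∀ n ≤ q, x n = y n := by
  have key : ∀ n, n ≤ q → x n = y n ∧ (n + 1 ≤ q → x (n + 1) = y (n + 1)) := by
    intro n
    induction n with
    | zero => exact fun _ => ⟨h0, fun _ => h1⟩
    | succ n ih =>
      intro hn
      obtain ⟨i1, i2⟩ := ih (by omega)
      have i3 := i2 hn
      refine ⟨i3, fun hn2 => ?_⟩
      have k1 := hx (n + 1) (by omega) (by omega)
      have k2 := hy (n + 1) (by omega) (by omega)
      rw [Nat.add_sub_cancel, i1, i3] at k1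
      rw [Nat.add_sub_cancel] at k2
      have k3 : e (n + 1) * (x (n + 1 + 1) - y (n + 1 + 1)) = 0 := by
        linear_combination k1 - k2
      exact sub_eq_zero.1 ((mul_eq_zero.1 k3).resolve_left (he _ (by omega) (by omega)))
  exact fun n hn => (key n hn).1

end Pool.Agent.MP_ae5b4e_an_NB4H
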