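import Pool.Agent.Lib.MP_ae5b4e_an_NB4H.FinH
import Pool.Agent.Lib.MP_ae5b4e_an_NB4.Fin

/-!
# MP_ae5b4e_an, NB_4: no natural boundary with bounded Schwarzian
-/

noncomputable section

namespace Pool.Agent.MP_ae5b4e_an_NB4H

open Complex Set Filter Topology Metric
open Pool.Agent.MP_ae5b4e_an_NBT
open Pool.Agent.MP_ae5b4e_an_NB2 (Sys)
open Pool.Agent.MP_ae5b4e_an_NB4

variable {k : ℂ → ℂ} {F G : ℂ × ℂ → ℂ} {c h : ℝ} {Y : Sys}

/-- **NB_4.** In the natural boundary case the function `|Q| D ^ 2` is not bounded in the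
maximal strip. -/
theorem no_bounded (hN : NBd k F c h G) (hY : SysOf Y G h) {C : ℝ}
    (hC : ∀ t ∈ St (-h) h, ‖Y.Q t‖ * (h - |t.im|) ^ 2 ≤ C) : False := by
  obtain ⟨q₁, q, hq, π₀, H⟩ := exists_bdd hN hY hC
  exact no_bdd H

end Pool.Agent.MP_ae5b4e_an_NB4H
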