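import Pool.Agent.Lib.MP_ae5b4e_an_NB4H.Chain
import Pool.Agent.Lib.MP_ae5b4e_an_NB4H.Jac
import Pool.Agent.Lib.MP_ae5b4e_an_NB4H.AdjK

/-!
# MP_ae5b4e_an, NB_4 part H: the monodromy of the real chain is not the identity
-/

noncomputable section

namespace Pool.Agent.MP_ae5b4e_an_NB4H

open Complex Set Filter Topology Metric
open Pool.Agent.MP_ae5b4e_an_NBT (St)
open Pool.Agent.MP_ae5b4e_an_NB2 (Sys)
open Pool.Agent.MP_ae5b4e_an_NB4

variable {Y : Sys} {h δ : ℝ} {L : ℂ × ℂ → ℂ} {t : ℂ} {q : ℕ}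

/-- the coefficients of the linearised chain, for `0 ≤ n` -/
def ca (Y : Sys) (z : ZMod q → ℂ) (n : ℕ) : ℂ :=
  nfa Y (lab q z ((n : ℤ) - 1)) (lab q z n) (lab q z ((n : ℤ) + 1))
def cb (Y : Sys) (z : ZMod q → ℂ) (n : ℕ) : ℂ :=
  nfb Y (lab q z ((n : ℤ) - 1)) (lab q z n) (lab q z ((n : ℤ) + 1))
def ce (Y : Sys) (z : ZMod q → ℂ) (n : ℕ) : ℂ :=
  nfe Y (lab q z ((n : ℤ) - 1)) (lab q z n) (lab q z ((n : ℤ) + 1))

/-- `nfe * s = - s ≠ 0` (`nfe_mul`, `s_zz_ne`) -/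
theorem ce_ne (hL : LabH Y h δ L) [NeZero q] (hq : 2 / δ < q) (ht : |t.im| < δ / 2) (n : ℕ) :
    ce Y (zz L q t) n ≠ 0 := by
  intro h0
  have hb := (chain_mem hL hq ht n).2
  have he := (chain_mem hL hq ht ((n : ℤ) + 1)).2
  have hn := nd_zz hL hq ht n
  rw [nd_eq] at hn
  have h1 := nfe_mul hL.on hb he hn
  unfold ce at h0
  rw [h0, zero_mul] at h1
  have h2 := s_zz_ne hL hq ht ((n:ℤ) - 1)
  rw [sub_add_cancel] at h2
  apply h2
  rw [Sys.s_symm]
  exact h1.symm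

private lemma rm_near (hδ : |t.im| < δ / 2) : ∀ᶠ x : ℂ in 𝓝 t, |x.im| < δ / 2 :=
  (continuous_im.abs.continuousAt.eventually_lt continuousAt_const hδ)

/-- the velocities of the labels solve the linearised equations: differentiate `nd_zz` with
respect to `t` (`nf_hasDerivAt`, `lab_deriv`) -/
theorem rec_dt (hL : LabH Y h δ L) [NeZero q] (hq : 2 / δ < q) (ht : |t.im| < δ / 2) (n : ℕ) :
    ca Y (zz L q t) n * deriv (fun s => L (s, 1 / q)) (t + (((n : ℤ) - 1 : ℤ) : ℂ) / q) +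
      cb Y (zz L q t) n * deriv (fun s => L (s, 1 / q)) (t + (n : ℂ) / q) +
      ce Y (zz L q t) n * deriv (fun s => L (s, 1 / q)) (t + (((n : ℤ) + 1 : ℤ) : ℂ) / q) = 0 := by
  have hS := fun m : ℤ => (chain_mem hL hq ht m).2
  have h1 := nf_hasDerivAt hL.on (lab_deriv hL hq ht ((n:ℤ) - 1)).1 (lab_deriv hL hq ht n).1
    (lab_deriv hL hq ht ((n:ℤ) + 1)).1 (hS _) (hS _) (hS _)
  have h3 : HasDerivAt (fun x => nf Y (lab q (zz L q x) ((n:ℤ) - 1)) (lab q (zz L q x) n)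
      (lab q (zz L q x) ((n:ℤ) + 1))) 0 t := by
    refine (hasDerivAt_const t (0:ℂ)).congr_of_eventuallyEq ?_
    filter_upwards [rm_near ht] with x hx
    exact nd_zz hL hq hx n
  have h4 := h1.unique h3
  rw [Int.cast_natCast] at h4
  exact h4

/-- the derivative of the label `n` with respect to the step `η` at `η = 1 / q` -/
def vr (L : ℂ × ℂ → ℂ) (q : ℕ) (t : ℂ) (n : ℤ) : ℂ :=
  deriv (fun η : ℂ => L (t + n * η, η)) (1 / q)

private lemma rm_q (hδ : 0 < δ) (hq : 2 / δ < q) : ‖(1 / q : ℂ)‖ < δ / 2 := by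
  have hq0 : (0:ℝ) < q := lt_trans (by positivity) hq
  rw [norm_div, norm_one, Complex.norm_natCast, div_lt_iff₀ hq0]
  rw [div_lt_iff₀ hδ] at hq
  linarith

private lemma rm_hd (hL : LabH Y h δ L) [NeZero q] (hq : 2 / δ < q) (ht : |t.im| < δ / 2)
    (n : ℤ) : HasDerivAt (fun η : ℂ => L (t + n * η, η)) (vr L q t n) (1 / q) := by
  have hm := (chain_mem hL hq ht n).1
  have h1 : AnalyticAt ℂ L ((fun η : ℂ => ((t + n * η, η) : ℂ × ℂ)) (1 / q)) := by
    have e : (fun η : ℂ => ((t + n * η, η) : ℂ × ℂ)) (1 / q) =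
        ((t + (n : ℂ) / q, 1 / q) : ℂ × ℂ) := by
      simp only [mul_one_div]
    rw [e]
    exact hL.an _ hm
  have h2 : DifferentiableAt ℂ (fun η : ℂ => ((t + n * η, η) : ℂ × ℂ)) (1 / q) := by fun_prop
  exact (DifferentiableAt.comp (f := fun η : ℂ => ((t + n * η, η) : ℂ × ℂ)) (1 / q : ℂ)
    h1.differentiableAt h2).hasDerivAt

/-- they solve the linearised equations: differentiate the node relation at
`(t + n η, η)` with respect to `η` (it holds for `η` near `1 / q`) -/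
theorem rec_vr (hL : LabH Y h δ L) [NeZero q] (hq : 2 / δ < q) (ht : |t.im| < δ / 2) (n : ℕ) :
    ca Y (zz L q t) n * vr L q t ((n : ℤ) - 1) + cb Y (zz L q t) n * vr L q t n +
      ce Y (zz L q t) n * vr L q t ((n : ℤ) + 1) = 0 := by
  have hS := fun m : ℤ => (chain_mem hL hq ht m).2
  have hval : ∀ m : ℤ, L (t + m * (1 / q), 1 / q) = lab q (zz L q t) m := by
    intro m
    rw [lab_zz hL hq ht m, mul_one_div]
  have h1 := nf_hasDerivAt hL.on (rm_hd hL hq ht ((n:ℤ) - 1)) (rm_hd hL hq ht n)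
    (rm_hd hL hq ht ((n:ℤ) + 1)) (by rw [hval]; exact hS _) (by rw [hval]; exact hS _)
    (by rw [hval]; exact hS _)
  simp only [hval] at h1
  have h3 : HasDerivAt (fun η : ℂ => nf Y (L (t + (((n:ℤ) - 1 : ℤ) : ℂ) * η, η))
      (L (t + ((n : ℤ) : ℂ) * η, η)) (L (t + (((n:ℤ) + 1 : ℤ) : ℂ) * η, η))) 0 (1 / q) := by
    refine (hasDerivAt_const (1 / q : ℂ) (0:ℂ)).congr_of_eventuallyEq ?_
    have hc : ContinuousAt (fun η : ℂ => |(t + ((n : ℤ) : ℂ) * η).im| + ‖η‖) (1 / q) := by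
      fun_prop
    have hlt : (fun η : ℂ => |(t + ((n : ℤ) : ℂ) * η).im| + ‖η‖) (1 / q) < δ := by
      have e : (t + ((n : ℤ) : ℂ) * (1 / q)).im = t.im := by
        have : (((n : ℤ) : ℂ) * (1 / q)).im = 0 := by
          have e2 : ((n : ℤ) : ℂ) * (1 / q) = (((n : ℝ) / q : ℝ) : ℂ) := by push_cast; ring
          rw [e2, ofReal_im]
        rw [add_im, this, add_zero]
      show |(t + ((n : ℤ) : ℂ) * (1 / q)).im| + ‖(1 / q : ℂ)‖ < δ
      rw [e]
      have := rm_q hL.pos hq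
      linarith
    filter_upwards [hc.eventually_lt continuousAt_const hlt] with η hη
    have hb : ((t + ((n : ℤ) : ℂ) * η, η) : ℂ × ℂ) ∈ Bx δ := by
      have h5 := abs_nonneg (t + ((n : ℤ) : ℂ) * η).im
      have h6 := norm_nonneg η
      exact ⟨by show |(t + ((n : ℤ) : ℂ) * η).im| < δ; linarith, by show ‖η‖ < δ; linarith⟩
    have h5 := hL.node _ hb hη
    have e1 : t + (((n:ℤ) - 1 : ℤ) : ℂ) * η = t + ((n : ℤ) : ℂ) * η - η := by push_cast; ring
    have e2 : t + (((n:ℤ) + 1 : ℤ) : ℂ) * η = t + ((n : ℤ) : ℂ) * η + η := by push_cast; ring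
    rw [e1, e2]
    exact h5
  have h4 := h1.unique h3
  exact h4

/-- `L (t + q η, η)` at `η = 1/q`: `vr q = vr 0 + q ∂_t L` because
`fderiv L (t + 1, 1/q) = fderiv L (t, 1/q)` -/
theorem vr_q (hL : LabH Y h δ L) [NeZero q] (hq : 2 / δ < q) (ht : |t.im| < δ / 2) :
    vr L q t q = vr L q t 0 + q * deriv (fun s => L (s, 1 / q)) t := by
  have hq0 : (q : ℂ) ≠ 0 := Nat.cast_ne_zero.2 (NeZero.ne q)
  have hm := (chain_mem hL hq ht 0).1
  rw [Int.cast_zero, zero_div, add_zero] at hm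
  have hd := (hL.an _ hm).differentiableAt.hasFDerivAt
  obtain ⟨D, hD⟩ : ∃ D : ℂ × ℂ →L[ℂ] ℂ, D = fderiv ℂ L (t, 1 / q) := ⟨_, rfl⟩
  rw [← hD] at hd
  have h0 : vr L q t 0 = D (0, 1) := by
    have h1 : HasDerivAt (fun η : ℂ => ((t + ((0:ℤ) : ℂ) * η, η) : ℂ × ℂ)) (0, 1) (1 / q) := by
      refine HasDerivAt.prodMk ?_ (hasDerivAt_id _)
      simpa using hasDerivAt_const (1 / q : ℂ) t
    have h2 : HasFDerivAt L D ((fun η : ℂ => ((t + ((0:ℤ) : ℂ) * η, η) : ℂ × ℂ)) (1 / q)) := by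
      simpa using hd
    exact (HasFDerivAt.comp_hasDerivAt (f := fun η : ℂ => ((t + ((0:ℤ) : ℂ) * η, η) : ℂ × ℂ))
      (1 / q : ℂ) h2 h1).deriv
  have h1 : deriv (fun s => L (s, 1 / q)) t = D (1, 0) := by
    have h1 : HasDerivAt (fun s : ℂ => ((s, 1 / q) : ℂ × ℂ)) (1, 0) t :=
      (hasDerivAt_id t).prodMk (hasDerivAt_const t _)
    exact (HasFDerivAt.comp_hasDerivAt t hd h1).deriv
  have h2 : vr L q t q = D (q, 1) := by
    have h1 : HasDerivAt (fun η : ℂ => ((t + (q : ℂ) * η - 1, η) : ℂ × ℂ)) (q, 1) (1 / q) := by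
      refine HasDerivAt.prodMk ?_ (hasDerivAt_id _)
      simpa using (((hasDerivAt_id (1 / q : ℂ)).const_mul (q : ℂ)).const_add t).sub_const 1
    have e : (fun η : ℂ => ((t + (q : ℂ) * η - 1, η) : ℂ × ℂ)) (1 / q) =
        ((t, 1 / q) : ℂ × ℂ) := by
      have : t + (q : ℂ) * (1 / q) - 1 = t := by field_simp; ring
      simp only [this]
    have h2 : HasFDerivAt L D ((fun η : ℂ => ((t + (q : ℂ) * η - 1, η) : ℂ × ℂ)) (1 / q)) := by
      rw [e]
      exact hd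
    have h3 := HasFDerivAt.comp_hasDerivAt
      (f := fun η : ℂ => ((t + (q : ℂ) * η - 1, η) : ℂ × ℂ)) (1 / q : ℂ) h2 h1
    have h4 := h3.add_const (1 : ℂ)
    refine HasDerivAt.deriv (h4.congr_of_eventuallyEq ?_)
    have hbox : ∀ᶠ η in 𝓝 (1 / q : ℂ), ((t + (q : ℂ) * η - 1, η) : ℂ × ℂ) ∈ Bx δ := by
      have hopen : IsOpen (Bx δ) := by
        have e3 : Bx δ = {p : ℂ × ℂ | |p.1.im| < δ} ∩ {p : ℂ × ℂ | ‖p.2‖ < δ} := by
          ext p
          simp [Bx]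
        rw [e3]
        exact (isOpen_lt (by fun_prop) continuous_const).inter
          (isOpen_lt (by fun_prop) continuous_const)
      have hc : ContinuousAt (fun η : ℂ => ((t + (q : ℂ) * η - 1, η) : ℂ × ℂ)) (1 / q) := by
        fun_prop
      refine hc.eventually (hopen.mem_nhds ?_)
      rw [e]
      exact hm
    filter_upwards [hbox] with η hη
    have h5 := hL.lper _ hη
    simp only [sub_add_cancel] at h5
    simp only [Function.comp_apply, Int.cast_natCast]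
    exact h5
  rw [h2, h0, h1]
  have e : ((q : ℂ), (1:ℂ)) = ((0:ℂ), (1:ℂ)) + (q : ℂ) • ((1:ℂ), (0:ℂ)) := by
    ext <;> simp
  rw [e, map_add, map_smul, smul_eq_mul]

/-- the velocity of the label `m` -/
private lemma rm_per (hL : LabH Y h δ L) [NeZero q] (hq : 2 / δ < q) (ht : |t.im| < δ / 2)
    (m : ℤ) : deriv (fun s => L (s, 1 / q)) (t + (((m : ZMod q).val : ℤ) : ℂ) / q) =
      deriv (fun s => L (s, 1 / q)) (t + (m : ℂ) / q) := by
  have hq0 : (q : ℂ) ≠ 0 := Nat.cast_ne_zero.2 (NeZero.ne q)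
  obtain ⟨r, hr⟩ : ∃ r : ℤ, r = ((m : ZMod q).val : ℤ) := ⟨_, rfl⟩
  have h1 : r = m % q := by rw [hr]; exact ZMod.val_intCast m
  obtain ⟨n, hn⟩ : ∃ n : ℤ, m = r + q * n := ⟨m / q, by rw [h1]; exact (Int.emod_add_mul_ediv m q).symm⟩
  rw [← hr]
  have e : t + (m : ℂ) / q = t + (r : ℂ) / q + n := by
    rw [hn]
    push_cast
    field_simp
    ring
  have hm := (chain_mem hL hq ht r).1
  have hopen : IsOpen {s : ℂ | ((s, 1 / q) : ℂ × ℂ) ∈ Bx δ} := by
    have e3 : {s : ℂ | ((s, 1 / q) : ℂ × ℂ) ∈ Bx δ} = {s : ℂ | |s.im| < δ ∧ ‖(1 / q : ℂ)‖ < δ} := rfl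
    rw [e3]
    exact (isOpen_lt (by fun_prop) continuous_const).and isOpen_const
  rw [e]
  symm
  calc deriv (fun s => L (s, 1 / q)) (t + (r : ℂ) / q + n)
      = deriv (fun s => L (s + n, 1 / q)) (t + (r : ℂ) / q) := by
        rw [deriv_comp_add_const (f := fun s => L (s, 1 / q))]
    _ = deriv (fun s => L (s, 1 / q) + n) (t + (r : ℂ) / q) := by
        apply Filter.EventuallyEq.deriv_eq
        filter_upwards [hopen.mem_nhds hm] with s hs
        exact L_add_int hL hs n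
    _ = deriv (fun s => L (s, 1 / q)) (t + (r : ℂ) / q) := by
        rw [deriv_add_const]

/-- `v = (∂_t L (t + j / q, 1 / q))_j` is in the kernel of `Jm` and has no zero. Let `u` be in the
kernel. If `v 0 u 1 = v 1 u 0` then `u` is a multiple of `v` (`rec_unique`). Otherwise
`vr 0 = α v 0 + β u 0`, `vr 1 = α v 1 + β u 1`, so `vr n = α v n + β u n` for `0 ≤ n ≤ q`
(`rec_unique` with `u (n mod q)`), and `vr q = vr 0`, contradiction to `vr_q`. Then
`adj_ne_zero`. -/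
theorem Rm_zz_ne (hL : LabH Y h δ L) [NeZero q] (hq : 2 / δ < q) (hq3 : 3 ≤ q)
    (ht : |t.im| < δ / 2) : Rm Y q (zz L q t) ≠ 0 := by
  have hq0 : (q : ℂ) ≠ 0 := Nat.cast_ne_zero.2 (NeZero.ne q)
  obtain ⟨z, hz⟩ : ∃ z, z = zz L q t := ⟨_, rfl⟩
  have hzS : z ∈ Sq h q := by rw [hz]; exact zz_mem_Sq hL hq ht
  set d : ℤ → ℂ := fun m => deriv (fun s => L (s, 1 / q)) (t + (m : ℂ) / q) with hd
  have hdper : ∀ m : ℤ, d ((m : ZMod q).val : ℤ) = d m := fun m => rm_per hL hq ht m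
  have hdne : ∀ m : ℤ, d m ≠ 0 := fun m => (lab_deriv hL hq ht m).2
  have hrd : ∀ n : ℕ, ca Y z n * d ((n:ℤ) - 1) + cb Y z n * d n + ce Y z n * d ((n:ℤ) + 1) = 0 := by
    intro n
    have := rec_dt hL hq ht n
    rw [← hz] at this
    simp only [hd, Int.cast_natCast]
    exact this
  have hrv : ∀ n : ℕ, ca Y z n * vr L q t ((n:ℤ) - 1) + cb Y z n * vr L q t n +
      ce Y z n * vr L q t ((n:ℤ) + 1) = 0 := by
    intro n
    rw [hz]
    exact rec_vr hL hq ht n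
  have hce : ∀ n : ℕ, ce Y z n ≠ 0 := fun n => by rw [hz]; exact ce_ne hL hq ht n
  set v : ZMod q → ℂ := fun j => d (j.val : ℤ) with hv
  have hvint : ∀ m : ℤ, v (m : ZMod q) = d m := hdper
  have hker : (Jm Y q z).mulVec v = 0 := by
    funext i
    rw [Jm_mulVec hL.on hzS, hvint, hvint, hvint, Pi.zero_apply]
    exact hrd i.val
  unfold Rm
  rw [← hz]
  refine adj_ne_zero hker (i₀ := (0 : ZMod q)) ?_ ?_
  · show d _ ≠ 0
    exact hdne _
  · intro u hu
    -- the recursion for `u`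
    have hx : ∀ n : ℕ, 1 ≤ n → n < q → ca Y z n * u ((n - 1 : ℕ) : ZMod q) +
        cb Y z n * u ((n : ℕ) : ZMod q) + ce Y z n * u ((n + 1 : ℕ) : ZMod q) = 0 := by
      intro n hn1 hn2
      have h1 := congrFun hu ((n : ℕ) : ZMod q)
      rw [Jm_mulVec hL.on hzS, Pi.zero_apply, ZMod.val_natCast, Nat.mod_eq_of_lt hn2] at h1
      have e1 : (((n:ℤ) - 1 : ℤ) : ZMod q) = ((n - 1 : ℕ) : ZMod q) := by
        rw [Nat.cast_sub hn1]
        push_cast
        ring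
      have e2 : (((n:ℤ) + 1 : ℤ) : ZMod q) = ((n + 1 : ℕ) : ZMod q) := by push_cast; ring
      rw [e1, e2, Int.cast_natCast] at h1
      exact h1
    have hD : ∀ n : ℕ, 1 ≤ n → n < q → ca Y z n * d ((n - 1 : ℕ) : ℤ) +
        cb Y z n * d (n : ℕ) + ce Y z n * d ((n + 1 : ℕ) : ℤ) = 0 := by
      intro n hn1 _
      have h1 := hrd n
      have e1 : (((n - 1 : ℕ) : ℤ)) = (n:ℤ) - 1 := by omega
      rw [e1]
      push_cast
      exact h1
    have hV : ∀ n : ℕ, 1 ≤ n → n < q → ca Y z n * vr L q t ((n - 1 : ℕ) : ℤ) +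
        cb Y z n * vr L q t (n : ℕ) + ce Y z n * vr L q t ((n + 1 : ℕ) : ℤ) = 0 := by
      intro n hn1 _
      have h1 := hrv n
      have e1 : (((n - 1 : ℕ) : ℤ)) = (n:ℤ) - 1 := by omega
      rw [e1]
      push_cast
      exact h1
    obtain ⟨x, hxdef⟩ : ∃ x : ℕ → ℂ, x = fun n => u ((n : ℕ) : ZMod q) := ⟨_, rfl⟩
    obtain ⟨D, hDdef⟩ : ∃ D : ℕ → ℂ, D = fun n => d ((n : ℕ) : ℤ) := ⟨_, rfl⟩
    obtain ⟨V, hVdef⟩ : ∃ V : ℕ → ℂ, V = fun n => vr L q t ((n : ℕ) : ℤ) := ⟨_, rfl⟩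
    have hx' : ∀ n : ℕ, 1 ≤ n → n < q → ca Y z n * x (n - 1) + cb Y z n * x n +
        ce Y z n * x (n + 1) = 0 := by
      rw [hxdef]; exact hx
    have hD' : ∀ n : ℕ, 1 ≤ n → n < q → ca Y z n * D (n - 1) + cb Y z n * D n +
        ce Y z n * D (n + 1) = 0 := by
      rw [hDdef]; exact hD
    have hV' : ∀ n : ℕ, 1 ≤ n → n < q → ca Y z n * V (n - 1) + cb Y z n * V n +
        ce Y z n * V (n + 1) = 0 := by
      rw [hVdef]; exact hV
    have hD0 : D 0 ≠ 0 := by rw [hDdef]; exact hdne _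
    have hxq : x q = x 0 := by
      rw [hxdef]
      simp
    have hDq : D q = D 0 := by
      rw [hDdef]
      show d ((q : ℕ) : ℤ) = d ((0 : ℕ) : ℤ)
      have := hdper ((q : ℕ) : ℤ)
      rw [← this]
      simp
    have hux : ∀ j : ZMod q, u j = x j.val := by
      intro j
      rw [hxdef]
      show u j = u ((j.val : ℕ) : ZMod q)
      rw [ZMod.natCast_zmod_val]
    by_cases hdet : D 0 * x 1 - D 1 * x 0 = 0
    · refine ⟨x 0 / D 0, ?_⟩
      have h2 : ∀ n ≤ q, x n = x 0 / D 0 * D n := by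
        refine rec_unique (a := ca Y z) (b := cb Y z) (e := ce Y z) (fun n _ _ => hce n) hx' ?_ ?_ ?_
        · intro n hn1 hn2
          have := hD' n hn1 hn2
          linear_combination (x 0 / D 0) * this
        · field_simp
        · rw [div_mul_eq_mul_div, eq_div_iff hD0]
          linear_combination hdet
      funext j
      rw [hux j, h2 _ (ZMod.val_lt j).le, Pi.smul_apply, smul_eq_mul, hDdef]
    · exfalso
      obtain ⟨Δ, hΔ⟩ : ∃ Δ : ℂ, Δ = D 0 * x 1 - D 1 * x 0 := ⟨_, rfl⟩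
      rw [← hΔ] at hdet
      have h2 : ∀ n ≤ q, V n = (V 0 * x 1 - V 1 * x 0) / Δ * D n +
          (D 0 * V 1 - D 1 * V 0) / Δ * x n := by
        refine rec_unique (a := ca Y z) (b := cb Y z) (e := ce Y z) (fun n _ _ => hce n) hV' ?_ ?_ ?_
        · intro n hn1 hn2
          have h3 := hD' n hn1 hn2
          have h4 := hx' n hn1 hn2
          linear_combination ((V 0 * x 1 - V 1 * x 0) / Δ) * h3 +
            ((D 0 * V 1 - D 1 * V 0) / Δ) * h4
        · field_simp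
          rw [hΔ]
          ring
        · field_simp
          rw [hΔ]
          ring
      have h3 := h2 q le_rfl
      rw [hDq, hxq] at h3
      have h4 : V q = V 0 := by
        rw [h3]
        exact (h2 0 (Nat.zero_le q)).symm
      have h5 := vr_q hL hq ht
      have h6 : V q = V 0 + q * D 0 := by
        rw [hVdef, hDdef]
        simp only [hd, Nat.cast_zero, Int.cast_zero, zero_div, add_zero]
        exact h5
      rw [h4] at h6
      have h7 : (q : ℂ) * D 0 = 0 := by linear_combination -h6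
      exact mul_ne_zero hq0 hD0 h7

end Pool.Agent.MP_ae5b4e_an_NB4H
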